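import Pool.Agent.PartRel.Split

/-!
The triple colouring and the finite combinatorial core: no caterpillar of four levels is
homogeneous.
-/

set_option linter.unusedSectionVars false

namespace PartRel

/-- abstract form of the triple colouring -/
def FF {Λ I : Type*} [LinearOrder Λ] (σ τ : Bool) (dab dac dbc : Λ)
    (sab sac sbc : Bool) (pa pb pc : I) : Prop :=
  (σ = τ ∧ sab = false ∧ sac = false ∧ dab < dac) ∨
  (σ ≠ τ ∧ ((pa = pb ∧ pb ≠ pc) ∨ (dab < dbc ∧ (sab = sbc ↔ σ = false))))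

/-- abstract form of `triple` together with the block axiom -/
def TT {Λ I : Type*} [LinearOrder Λ] (dab dac dbc : Λ)
    (sab sac sbc : Bool) (pa pb pc : I) : Prop :=
  ((dab < dbc ∧ dac = dab ∧ sac = sab) ∨ (dbc < dab ∧ dac = dbc ∧ sac = sbc) ∨
    (dab = dbc ∧ dab < dac ∧ sbc = !sab)) ∧
  (pa = pb → pb ≠ pc → dac < dab) ∧ (pb = pc → pa ≠ pb → dab < dbc)

theorem cat {Λ I : Type*} [LinearOrder Λ] [LinearOrder I]
    (dab dac dad dbc dbd dcd : Λ) (sab sac sad sbc sbd scd : Bool) (pa pb pc pd : I)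
    (hab : pa ≤ pb) (hbc : pb ≤ pc) (hcd : pc ≤ pd)
    (habc : TT dab dac dbc sab sac sbc pa pb pc)
    (habd : TT dab dad dbd sab sad sbd pa pb pd)
    (hacd : TT dac dad dcd sac sad scd pa pc pd)
    (hbcd : TT dbc dbd dcd sbc sbd scd pb pc pd)
    (τ1 τ2 τ3 : Bool)
    (h1 : FF τ1 τ2 dab dac dbc sab sac sbc pa pb pc)
    (h2 : FF τ1 τ2 dab dad dbd sab sad sbd pa pb pd)
    (h3 : FF τ1 τ3 dac dad dcd sac sad scd pa pc pd)
    (h4 : FF τ2 τ3 dbc dbd dcd sbc sbd scd pb pc pd) : False := by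
  unfold FF TT at *
  cases τ1 <;> cases τ2 <;> cases τ3 <;> simp only [reduceCtorEq, ne_eq, not_true_eq_false, not_false_eq_true, true_and, false_and, or_false, false_or, iff_true, iff_false] at * <;> grind

end PartRel
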