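import Pool.Agent.PartRel.Cat

/-!
The colouring of four-element sets of `Bool`-valued functions on `W`, and the proof that no
five-element set is homogeneous in colour 1.
-/

set_option linter.unusedSectionVars false

namespace PartRel

variable {W Λ I : Type*} [LinearOrder W] [WellFoundedLT W] [LinearOrder Λ] [WellFoundedLT Λ]
  [Nonempty Λ] [LinearOrder I]

/-- `e` codes the levels by functions on `Λ` and `π` gives the block of a level. -/
structure Coding (e : W → Λ → Bool) (π : W → I) : Prop where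
  inj : Function.Injective e
  mono : Monotone π
  block : ∀ a b c, a ≠ b → π a = π b → π b ≠ π c → fd (e a) (e c) < fd (e a) (e b)

/-- the triple colouring on the levels -/
def FW (e : W → Λ → Bool) (π : W → I) (σ τ : Bool) (a b c : W) : Prop :=
  FF σ τ (fd (e a) (e b)) (fd (e a) (e c)) (fd (e b) (e c))
    (sg (e a) (e b)) (sg (e a) (e c)) (sg (e b) (e c)) (π a) (π b) (π c)

theorem Coding.tt {e : W → Λ → Bool} {π : W → I} (h : Coding e π) {a b c : W}
    (hab : a < b) (hbc : b < c) :
    TT (fd (e a) (e b)) (fd (e a) (e c)) (fd (e b) (e c))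
    (sg (e a) (e b)) (sg (e a) (e c)) (sg (e b) (e c)) (π a) (π b) (π c) := by
  have n1 := h.inj.ne hab.ne
  have n2 := h.inj.ne hbc.ne
  have n3 := h.inj.ne (hab.trans hbc).ne
  refine ⟨triple n1 n2 n3, fun h1 h2 => h.block a b c hab.ne h1 h2, fun h1 h2 => ?_⟩
  rw [fd_comm (e a) (e b)]
  exact h.block b c a hbc.ne h1 (by rw [← h1]; exact h2.symm)

theorem Coding.cat {e : W → Λ → Bool} {π : W → I} (h : Coding e π) {a b c d : W}
    (hab : a < b) (hbc : b < c) (hcd : c < d) (τ1 τ2 τ3 : Bool)
    (h1 : FW e π τ1 τ2 a b c) (h2 : FW e π τ1 τ2 a b d) (h3 : FW e π τ1 τ3 a c d)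
    (h4 : FW e π τ2 τ3 b c d) : False :=
  PartRel.cat _ _ _ _ _ _ _ _ _ _ _ _ (π a) (π b) (π c) (π d) (h.mono hab.le) (h.mono hbc.le)
    (h.mono hcd.le) (h.tt hab hbc) (h.tt hab (hbc.trans hcd)) (h.tt (hab.trans hbc) hcd)
    (h.tt hbc hcd) τ1 τ2 τ3 h1 h2 h3 h4

/-- `S` contains a configuration of colour 1 -/
def Good (e : W → Λ → Bool) (π : W → I) (S : Set (W → Bool)) : Prop :=
  ∃ w ∈ S, ∃ x ∈ S, ∃ y ∈ S, ∃ z ∈ S, ∃ a b c, a < b ∧ b < c ∧
    Spl x w a ∧ Spl y w b ∧ Spl z w c ∧ FW e π (w a) (w b) a b c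

theorem good_unique {e : W → Λ → Bool} {π : W → I} {S : Set (W → Bool)}
    {w x y z : W → Bool} {a b c : W} (hab : a < b) (hbc : b < c)
    (hx : Spl x w a) (hy : Spl y w b) (hz : Spl z w c)
    (hS : ∀ v ∈ S, v = w ∨ v = x ∨ v = y ∨ v = z) (hG : Good e π S) :
    FW e π (w a) (w b) a b c := by
  obtain ⟨w', hw', x', hx', y', hy', z', hz', a', b', c', hab', hbc', sx, sy, sz, hF⟩ := hG
  rcases hS w' hw' with rfl | rfl | rfl | rfl
  · -- reference w
    have lev : ∀ v ∈ S, ∀ l, Spl v w' l → l = a ∨ l = b ∨ l = c := by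
      intro v hv l hl
      rcases hS v hv with rfl | rfl | rfl | rfl
      · exact absurd rfl hl.ne
      · exact Or.inl (hl.unique hx)
      · exact Or.inr (Or.inl (hl.unique hy))
      · exact Or.inr (Or.inr (hl.unique hz))
    have l1 := lev x' hx' a' sx
    have l2 := lev y' hy' b' sy
    have l3 := lev z' hz' c' sz
    have hh : a' = a ∧ b' = b ∧ c' = c := by
      clear hF lev sx sy sz hx hy hz hS
      grind
    obtain ⟨rfl, rfl, rfl⟩ := hh
    exact hF
  · -- reference x
    exfalso
    have lev : ∀ v ∈ S, ∀ l, Spl v w' l → l = a := by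
      intro v hv l hl
      rcases hS v hv with rfl | rfl | rfl | rfl
      · exact hl.unique hx.symm
      · exact absurd rfl hl.ne
      · exact hl.unique (hy.trans_gt hx.symm hab)
      · exact hl.unique (hz.trans_gt hx.symm (hab.trans hbc))
    have l1 := lev x' hx' a' sx
    have l2 := lev y' hy' b' sy
    rw [l1, l2] at hab'
    exact lt_irrefl _ hab'
  · -- reference y
    exfalso
    have lev : ∀ v ∈ S, ∀ l, Spl v w' l → l = a ∨ l = b := by
      intro v hv l hl
      rcases hS v hv with rfl | rfl | rfl | rfl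
      · exact Or.inr (hl.unique hy.symm)
      · exact Or.inl (hl.unique (hx.trans_lt hy.symm hab))
      · exact absurd rfl hl.ne
      · exact Or.inr (hl.unique (hz.trans_gt hy.symm hbc))
    have l1 := lev x' hx' a' sx
    have l2 := lev y' hy' b' sy
    have l3 := lev z' hz' c' sz
    clear hF lev sx sy sz hx hy hz hS
    grind
  · -- reference z
    have lev : ∀ v ∈ S, ∀ l, Spl v w' l → l = a ∨ l = b ∨ l = c := by
      intro v hv l hl
      rcases hS v hv with rfl | rfl | rfl | rfl
      · exact Or.inr (Or.inr (hl.unique hz.symm))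
      · exact Or.inl (hl.unique (hx.trans_lt hz.symm (hab.trans hbc)))
      · exact Or.inr (Or.inl (hl.unique (hy.trans_lt hz.symm hbc)))
      · exact absurd rfl hl.ne
    have l1 := lev x' hx' a' sx
    have l2 := lev y' hy' b' sy
    have l3 := lev z' hz' c' sz
    have hh : a' = a ∧ b' = b ∧ c' = c := by
      clear hF lev sx sy sz hx hy hz hS
      grind
    obtain ⟨rfl, rfl, rfl⟩ := hh
    rw [← hz.1 a' (hab.trans hbc), ← hz.1 b' hbc]
    exact hF

/-- a set which splits two and two has colour 0 -/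
theorem not_good_of_balanced {e : W → Λ → Bool} {π : W → I} {S : Set (W → Bool)}
    {w z y v : W → Bool} {l c : W} (hlc : l < c)
    (hz : Spl z w c) (hy : Spl y w l) (hv : Spl v w l)
    (hS : ∀ u ∈ S, u = w ∨ u = z ∨ u = y ∨ u = v) : ¬ Good e π S := by
  rintro ⟨w', hw', x', hx', y', hy', z', hz', a', b', c', hab', hbc', sx, sy, sz, hF⟩
  by_cases hvy : v = y
  · -- only three elements
    subst hvy
    rcases hS w' hw' with rfl | rfl | rfl | rfl
    · have lev : ∀ v ∈ S, ∀ m, Spl v w' m → m = c ∨ m = l := by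
        intro u hu m hm
        rcases hS u hu with rfl | rfl | rfl | rfl
        · exact absurd rfl hm.ne
        · exact Or.inl (hm.unique hz)
        · exact Or.inr (hm.unique hy)
        · exact Or.inr (hm.unique hy)
      have l1 := lev x' hx' a' sx
      have l2 := lev y' hy' b' sy
      have l3 := lev z' hz' c' sz
      clear hF lev sx sy sz hy hz hS hv
      grind
    · have lev : ∀ v ∈ S, ∀ m, Spl v w' m → m = c ∨ m = l := by
        intro u hu m hm
        rcases hS u hu with rfl | rfl | rfl | rfl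
        · exact Or.inl (hm.unique hz.symm)
        · exact absurd rfl hm.ne
        · exact Or.inr (hm.unique (hy.trans_lt hz.symm hlc))
        · exact Or.inr (hm.unique (hy.trans_lt hz.symm hlc))
      have l1 := lev x' hx' a' sx
      have l2 := lev y' hy' b' sy
      have l3 := lev z' hz' c' sz
      clear hF lev sx sy sz hy hz hS hv
      grind
    all_goals
      have lev : ∀ v ∈ S, ∀ m, Spl v w' m → m = l := by
        intro u hu m hm
        rcases hS u hu with rfl | rfl | rfl | rfl
        · exact hm.unique hy.symm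
        · exact hm.unique (hz.trans_gt hy.symm hlc)
        · exact absurd rfl hm.ne
        · exact absurd rfl hm.ne
      have l1 := lev x' hx' a' sx
      have l2 := lev y' hy' b' sy
      rw [l1, l2] at hab'
      exact lt_irrefl _ hab'
  · obtain ⟨d, hd⟩ := exists_spl hvy
    rcases hS w' hw' with rfl | rfl | rfl | rfl
    · have lev : ∀ v ∈ S, ∀ m, Spl v w' m → m = c ∨ m = l := by
        intro u hu m hm
        rcases hS u hu with rfl | rfl | rfl | rfl
        · exact absurd rfl hm.ne
        · exact Or.inl (hm.unique hz)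
        · exact Or.inr (hm.unique hy)
        · exact Or.inr (hm.unique hv)
      have l1 := lev x' hx' a' sx
      have l2 := lev y' hy' b' sy
      have l3 := lev z' hz' c' sz
      clear hF lev sx sy sz hy hz hS hv
      grind
    · have lev : ∀ v ∈ S, ∀ m, Spl v w' m → m = c ∨ m = l := by
        intro u hu m hm
        rcases hS u hu with rfl | rfl | rfl | rfl
        · exact Or.inl (hm.unique hz.symm)
        · exact absurd rfl hm.ne
        · exact Or.inr (hm.unique (hy.trans_lt hz.symm hlc))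
        · exact Or.inr (hm.unique (hv.trans_lt hz.symm hlc))
      have l1 := lev x' hx' a' sx
      have l2 := lev y' hy' b' sy
      have l3 := lev z' hz' c' sz
      clear hF lev sx sy sz hy hz hS hv
      grind
    · have lev : ∀ v ∈ S, ∀ m, Spl v w' m → m = l ∨ m = d := by
        intro u hu m hm
        rcases hS u hu with rfl | rfl | rfl | rfl
        · exact Or.inl (hm.unique hy.symm)
        · exact Or.inl (hm.unique (hz.trans_gt hy.symm hlc))
        · exact absurd rfl hm.ne
        · exact Or.inr (hm.unique hd)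
      have l1 := lev x' hx' a' sx
      have l2 := lev y' hy' b' sy
      have l3 := lev z' hz' c' sz
      clear hF lev sx sy sz hy hz hS hv
      grind
    · have lev : ∀ v ∈ S, ∀ m, Spl v w' m → m = l ∨ m = d := by
        intro u hu m hm
        rcases hS u hu with rfl | rfl | rfl | rfl
        · exact Or.inl (hm.unique hv.symm)
        · exact Or.inl (hm.unique (hz.trans_gt hv.symm hlc))
        · exact Or.inr (hm.unique hd.symm)
        · exact absurd rfl hm.ne
      have l1 := lev x' hx' a' sx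
      have l2 := lev y' hy' b' sy
      have l3 := lev z' hz' c' sz
      clear hF lev sx sy sz hy hz hS hv
      grind

theorem cat5 {e : W → Λ → Bool} {π : W → I} (h : Coding e π)
    {w x y z v : W → Bool} {a b c d : W} (hab : a < b) (hbc : b < c) (hcd : c < d)
    (hx : Spl x w a) (hy : Spl y w b) (hz : Spl z w c) (hv : Spl v w d)
    (g1 : Good e π {w, x, y, z}) (g2 : Good e π {w, x, y, v}) (g3 : Good e π {w, x, z, v})
    (g4 : Good e π {w, y, z, v}) : False := by
  refine h.cat hab hbc hcd (w a) (w b) (w c) ?_ ?_ ?_ ?_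
  · exact good_unique hab hbc hx hy hz (by simp) g1
  · exact good_unique hab (hbc.trans hcd) hx hy hv (by simp) g2
  · exact good_unique (hab.trans hbc) hcd hx hz hv (by simp) g3
  · exact good_unique hbc hcd hy hz hv (by simp) g4

open Classical in
theorem no_five {e : W → Λ → Bool} {π : W → I} (h : Coding e π) (S : Finset (W → Bool))
    (hS : 4 < S.card) (hG : ∀ s ⊆ S, s.card = 4 → Good e π (s : Set (W → Bool))) : False := by
  have H : ∀ p ∈ S, ∀ q ∈ S, ∀ r ∈ S, ∀ s ∈ S, p ≠ q → p ≠ r → p ≠ s → q ≠ r → q ≠ s → r ≠ s →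
      Good e π {p, q, r, s} := by
    intro p hp q hq r hr s hs h1 h2 h3 h4 h5 h6
    have := hG {p, q, r, s} (by
      intro t ht; simp only [Finset.mem_insert, Finset.mem_singleton] at ht
      rcases ht with rfl | rfl | rfl | rfl <;> assumption) (by
      rw [Finset.card_insert_of_notMem, Finset.card_insert_of_notMem,
        Finset.card_insert_of_notMem, Finset.card_singleton] <;> simp_all)
    simpa using this
  obtain ⟨s, hsS, hs4⟩ := Finset.exists_subset_card_eq hS.le
  obtain ⟨w, hw, x, hx, y, hy, z, hz, a, b, c, hab, hbc, sx, sy, sz, -⟩ := hG s hsS hs4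
  have hw := hsS hw
  have hx := hsS hx
  have hy := hsS hy
  have hz := hsS hz
  have nxw := sx.ne
  have nyw := sy.ne
  have nzw := sz.ne
  have sxy : Spl x y a := sx.trans_lt sy.symm hab
  have sxz : Spl x z a := sx.trans_lt sz.symm (hab.trans hbc)
  have syz : Spl y z b := sy.trans_lt sz.symm hbc
  obtain ⟨v, hv, hv'⟩ : ∃ v ∈ S, v ∉ ({w, x, y, z} : Finset (W → Bool)) := by
    by_contra hcon
    push Not at hcon
    have h1 : S ⊆ {w, x, y, z} := hcon
    have h2 := Finset.card_le_card h1
    have h3 : ({w, x, y, z} : Finset (W → Bool)).card ≤ 4 := Finset.card_le_four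
    omega
  simp only [Finset.mem_insert, Finset.mem_singleton, not_or] at hv'
  obtain ⟨nvw', nvx', nvy', nvz'⟩ := hv'
  have nvw : v ≠ w := nvw'
  have nvx : v ≠ x := nvx'
  have nvy : v ≠ y := nvy'
  have nvz : v ≠ z := nvz'
  obtain ⟨l, sv⟩ := exists_spl nvw
  have nxy := sxy.ne
  have nxz := sxz.ne
  have nyz := syz.ne
  rcases lt_trichotomy l a with hl | hl | hl
  · exact cat5 h hl hab hbc sv sx sy sz
      (H _ hw _ hv _ hx _ hy nvw.symm nxw.symm nyw.symm nvx nvy nxy)
      (H _ hw _ hv _ hx _ hz nvw.symm nxw.symm nzw.symm nvx nvz nxz)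
      (H _ hw _ hv _ hy _ hz nvw.symm nyw.symm nzw.symm nvy nvz nyz)
      (H _ hw _ hx _ hy _ hz nxw.symm nyw.symm nzw.symm nxy nxz nyz)
  · subst hl
    exact not_good_of_balanced (hab.trans hbc) sz sx sv (by simp)
      (H _ hw _ hz _ hx _ hv nzw.symm nxw.symm nvw.symm nxz.symm nvz.symm nvx.symm)
  rcases lt_trichotomy l b with hl' | hl' | hl'
  · exact cat5 h hl hl' hbc sx sv sy sz
      (H _ hw _ hx _ hv _ hy nxw.symm nvw.symm nyw.symm nvx.symm nxy nvy)
      (H _ hw _ hx _ hv _ hz nxw.symm nvw.symm nzw.symm nvx.symm nxz nvz)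
      (H _ hw _ hx _ hy _ hz nxw.symm nyw.symm nzw.symm nxy nxz nyz)
      (H _ hw _ hv _ hy _ hz nvw.symm nyw.symm nzw.symm nvy nvz nyz)
  · subst hl'
    exact not_good_of_balanced hbc sz sy sv (by simp)
      (H _ hw _ hz _ hy _ hv nzw.symm nyw.symm nvw.symm nyz.symm nvz.symm nvy.symm)
  rcases lt_trichotomy l c with hl'' | hl'' | hl''
  · exact cat5 h hab hl' hl'' sx sy sv sz
      (H _ hw _ hx _ hy _ hv nxw.symm nyw.symm nvw.symm nxy nvx.symm nvy.symm)
      (H _ hw _ hx _ hy _ hz nxw.symm nyw.symm nzw.symm nxy nxz nyz)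
      (H _ hw _ hx _ hv _ hz nxw.symm nvw.symm nzw.symm nvx.symm nxz nvz)
      (H _ hw _ hy _ hv _ hz nyw.symm nvw.symm nzw.symm nvy.symm nyz nvz)
  · subst hl''
    obtain ⟨d, hd⟩ := exists_spl nvz
    have hld : l < d := sv.trans_eq sz.symm hd
    exact cat5 h hab hbc hld sxz syz sz.symm hd
      (H _ hz _ hx _ hy _ hw nxz.symm nyz.symm nzw nxy nxw nyw)
      (H _ hz _ hx _ hy _ hv nxz.symm nyz.symm nvz.symm nxy nvx.symm nvy.symm)
      (H _ hz _ hx _ hw _ hv nxz.symm nzw nvz.symm nxw nvx.symm nvw.symm)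
      (H _ hz _ hy _ hw _ hv nyz.symm nzw nvz.symm nyw nvy.symm nvw.symm)
  · exact cat5 h hab hbc hl'' sx sy sz sv
      (H _ hw _ hx _ hy _ hz nxw.symm nyw.symm nzw.symm nxy nxz nyz)
      (H _ hw _ hx _ hy _ hv nxw.symm nyw.symm nvw.symm nxy nvx.symm nvy.symm)
      (H _ hw _ hx _ hz _ hv nxw.symm nzw.symm nvw.symm nxz nvx.symm nvz.symm)
      (H _ hw _ hy _ hz _ hv nyw.symm nzw.symm nvw.symm nyz nvy.symm nvz.symm)

end PartRel
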