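import Pool.Agent.PartRel.Free

/-!
The concrete system of levels: blocks `{0,1}^{ω_α}` for `α < ω₁`.
-/

set_option linter.unusedSectionVars false

namespace PartRel

open Cardinal Ordinal

universe u

instance sumLexWF {K : Type u} [LinearOrder K] [WellFoundedLT K] : WellFoundedLT (ℕ ⊕ₗ K) :=
  ⟨Sum.lex_wf wellFounded_lt wellFounded_lt⟩

theorem lt_aleph_omega_one {μ : Cardinal.{u}} (h : μ < ℵ_ (ω_ 1)) : ∃ o < ω_ 1, μ ≤ ℵ_ o := by
  by_cases h0 : ℵ₀ ≤ μ
  · obtain ⟨o, ho⟩ := mem_range_aleph_iff.2 h0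
    refine ⟨o, ?_, ho.ge⟩
    rw [← ho] at h
    exact aleph_lt_aleph.1 h
  · refine ⟨0, omega_pos 1, ?_⟩
    rw [aleph_zero]
    exact (not_le.mp h0).le

theorem countable_union {V : Type u} (S : Set (Set V)) (hS : S.Countable)
    (h : ∀ s ∈ S, #s < ℵ_ (ω_ 1)) : #(⋃₀ S) < ℵ_ (ω_ 1) := by
  choose o ho hle using fun s : S => lt_aleph_omega_one (h s.1 s.2)
  have : Countable S := hS
  have hsup : ⨆ s, o s < ω_ 1 := iSup_lt_omega_one ho
  refine lt_of_le_of_lt (mk_sUnion_le S) ?_
  have h1 : ⨆ s : S, #s.1 ≤ ℵ_ (⨆ s, o s) := by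
    refine ciSup_le' fun s => (hle s).trans (aleph_le_aleph.2 ?_)
    exact Ordinal.le_iSup o s
  refine lt_of_le_of_lt (mul_le_mul' (Cardinal.le_aleph0_iff_set_countable.2 hS) h1) ?_
  rw [aleph0_mul_eq (aleph0_le_aleph _)]
  exact aleph_lt_aleph.2 hsup

theorem exists_system (lam : Cardinal.{u}) (hlam : lam = ℵ_ (ω_ 1)) :
    ∃ (W Λ I : Type u) (_ : LinearOrder W) (_ : WellFoundedLT W) (_ : LinearOrder Λ)
      (_ : WellFoundedLT Λ) (_ : Nonempty Λ) (_ : LinearOrder I)
      (e : W → Λ → Bool) (π : W → I) (J₀ : Set Λ) (J : I → Set Λ) (k : I → Cardinal.{u}),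
      Blocks e π J₀ J k lam ∧ ∀ μ < lam, 2 ^ μ ≤ #W := by
  subst hlam
  let I : Type u := (ω_ 1 : Ordinal.{u}).ToType
  let K : Type u := (ω_ (ω_ 1) : Ordinal.{u}).ToType
  let rk : I → Ordinal.{u} := fun i => ((ToType.mk (o := ω_ 1)).symm i).1
  have hrk : ∀ i, rk i < ω_ 1 := fun i => ((ToType.mk (o := ω_ 1)).symm i).2
  have hK : #K = ℵ_ (ω_ 1) := by rw [mk_toType, card_omega]
  have hP : ∀ i : I, ∃ p : Set K, #p = ℵ_ (rk i) := fun i =>
    le_mk_iff_exists_set.1 (by rw [hK]; exact aleph_le_aleph.2 (hrk i).le)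
  choose P hP using hP
  -- a family of distinct reals
  have hI : #I = ℵ₁ := by rw [mk_toType, card_omega]
  have hr : Nonempty (I ↪ (ℕ → Bool)) := by
    rw [← Cardinal.lift_mk_le', hI]
    simp only [mk_pi, mk_bool, prod_const, Cardinal.lift_id, mk_nat]
    simpa using aleph_one_le_continuum
  obtain ⟨r⟩ := hr
  -- the well-ordered set of all functions
  let V : Type u := (#(K → Bool)).ord.ToType
  have hV : Nonempty (V ≃ (K → Bool)) := by
    rw [← Cardinal.eq, mk_ord_toType]
  obtain ⟨φ⟩ := hV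
  let W : Type u := {p : I ×ₗ V // ∀ k, k ∉ P (ofLex p).1 → φ (ofLex p).2 k = false}
  let Λ : Type u := ℕ ⊕ₗ K
  let π : W → I := fun p => (ofLex p.1).1
  let e : W → Λ → Bool := fun p l => Sum.elim (r (π p)) (φ (ofLex p.1).2) (ofLex l)
  have hcross : ∀ a b ξ, π a ≠ π b → Spl (e a) (e b) ξ → ∃ n : ℕ, ξ = toLex (Sum.inl n) := by
    intro a b ξ hab hs
    obtain ⟨n, hn⟩ : ∃ n, r (π a) n ≠ r (π b) n := by
      by_contra hcon
      push Not at hcon
      exact hab (r.injective (funext hcon))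
    rcases h : ofLex ξ with m | k
    · exact ⟨m, by rw [← h]; rfl⟩
    · exfalso
      have hlt : (toLex (Sum.inl n) : Λ) < ξ := by
        have : ξ = toLex (Sum.inr k) := by rw [← h]; rfl
        rw [this]
        exact Sum.Lex.inl_lt_inr _ _
      exact hn (hs.1 _ hlt)
  have hinside : ∀ a b ξ, π a = π b → Spl (e a) (e b) ξ →
      ∃ k ∈ P (π a), ξ = toLex (Sum.inr k) := by
    intro a b ξ hab hs
    rcases h : ofLex ξ with m | k
    · exfalso
      have h2 := hs.2
      simp only [e, h, Sum.elim_inl, hab] at h2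
      exact h2 rfl
    · refine ⟨k, ?_, by rw [← h]; rfl⟩
      by_contra hk
      have h2 := hs.2
      simp only [e, h, Sum.elim_inr] at h2
      rw [a.2 k hk, b.2 k (by rw [show (ofLex b.1).1 = π a from hab.symm]; exact hk)] at h2
      exact h2 rfl
  have hinj : Function.Injective e := by
    intro a b hab
    have h1 : π a = π b := by
      apply r.injective
      funext n
      exact congrFun hab (toLex (Sum.inl n))
    have h2 : φ (ofLex a.1).2 = φ (ofLex b.1).2 := by
      funext k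
      exact congrFun hab (toLex (Sum.inr k))
    apply Subtype.ext
    apply ofLex.injective
    exact Prod.ext h1 (φ.injective h2)
  have hne : Nonempty Λ := ⟨toLex (Sum.inl 0)⟩
  refine ⟨W, Λ, I, inferInstance, inferInstance, inferInstance, inferInstance, hne,
    inferInstance, e, π, {ξ | ∃ n : ℕ, ξ = toLex (Sum.inl n)},
    fun i => {ξ | ∃ k ∈ P i, ξ = toLex (Sum.inr k)}, fun i => ℵ_ (rk i), ?_, ?_⟩
  · refine { inj := hinj, mono := ?_, block := ?_, cross := hcross, count := ?_,
             inside := hinside, card := ?_, inf := fun i => aleph0_le_aleph _,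
             lt := fun i => aleph_lt_aleph.2 (hrk i), lam_inf := ?_, union := ?_ }
    · intro a b hab
      exact Prod.Lex.monotone_fst _ _ hab
    · intro a b c hne' hab hbc
      obtain ⟨k, hk, h1⟩ := hinside a b _ hab (fd_spl (hinj.ne hne'))
      obtain ⟨n, h2⟩ := hcross a c _ (by rw [hab]; exact hbc)
        (fd_spl (hinj.ne (by rintro rfl; exact hbc hab.symm)))
      rw [h1, h2]
      exact Sum.Lex.inl_lt_inr _ _
    · have : {ξ : Λ | ∃ n : ℕ, ξ = toLex (Sum.inl n)} = Set.range (fun n : ℕ => (toLex (Sum.inl n) : Λ)) := by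
        ext ξ
        constructor
        · rintro ⟨n, rfl⟩; exact ⟨n, rfl⟩
        · rintro ⟨n, rfl⟩; exact ⟨n, rfl⟩
      rw [this]
      exact Set.countable_range _
    · intro i
      have : {ξ : Λ | ∃ k ∈ P i, ξ = toLex (Sum.inr k)} = (fun k : K => (toLex (Sum.inr k) : Λ)) '' P i := by
        ext ξ
        constructor
        · rintro ⟨n, hn, rfl⟩; exact ⟨n, hn, rfl⟩
        · rintro ⟨n, hn, rfl⟩; exact ⟨n, hn, rfl⟩
      rw [this, ← hP i]
      exact mk_image_le
    · rw [← aleph_zero]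
      exact aleph_lt_aleph.2 (omega_pos 1)
    · exact fun S hS h => countable_union S hS h
  · intro μ hμ
    obtain ⟨o, ho, hle⟩ := lt_aleph_omega_one hμ
    let i : I := ToType.mk ⟨o, ho⟩
    have hi : rk i = o := by simp [rk, i]
    refine (Cardinal.power_le_power_left two_ne_zero hle).trans ?_
    rw [← hi, ← hP i]
    have h2 : #(P i → Bool) = 2 ^ #(P i) := by simp
    rw [← h2]
    classical
    have : #(P i → Bool) ≤ #W := by
      refine Cardinal.mk_le_of_injective (f := fun g : P i → Bool =>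
        (⟨toLex (i, φ.symm (fun k => if h : k ∈ P i then g ⟨k, h⟩ else false)), ?_⟩ : W)) ?_
      · intro k hk
        simp only [ofLex_toLex, Equiv.apply_symm_apply]
        exact dif_neg hk
      · intro g g' hg
        have h1 := congrArg (fun p : W => φ (ofLex p.1).2) hg
        simp only [ofLex_toLex, Equiv.apply_symm_apply] at h1
        funext ⟨k, hk⟩
        have := congrFun h1 k
        simpa [hk] using this
    exact this

end PartRel
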