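import Mathlib

/-!
The ramification argument: end-homogeneous sets (Erdős–Rado), in a form valid for
singular cardinals.
-/

set_option linter.unusedSectionVars false

namespace PartRel

open Cardinal Ordinal

universe u

section Tree

variable {X : Type u} [LinearOrder X] [WellFoundedLT X]

/-- `PT f x y`: the point `y` is a predecessor of `x` in the ramification tree of `f` -/
noncomputable def PT (f : Finset X → Prop) (x : X) : X → Prop :=
  WellFounded.fix (C := fun _ => Prop) (wellFounded_lt : WellFounded ((· < ·) : X → X → Prop))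
    (fun y rec => y < x ∧ ∀ A : Finset X, (∀ z ∈ A, ∃ h : z < y, rec z h) →
      (f (insert y A) ↔ f (insert x A)))

variable {f : Finset X → Prop}

theorem PT_iff {x y : X} : PT f x y ↔ y < x ∧ ∀ A : Finset X, (∀ z ∈ A, z < y ∧ PT f x z) →
    (f (insert y A) ↔ f (insert x A)) := by
  unfold PT
  rw [WellFounded.fix_eq]
  simp only [exists_prop]

theorem PT.lt {x y : X} (h : PT f x y) : y < x := (PT_iff.1 h).1

theorem PT.eq {x y : X} (h : PT f x y) {A : Finset X} (hA : ∀ z ∈ A, z < y ∧ PT f x z) :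
    f (insert y A) ↔ f (insert x A) := (PT_iff.1 h).2 A hA

theorem PT.coh {x y : X} (h : PT f x y) (z : X) : PT f y z ↔ PT f x z ∧ z < y := by
  induction z using WellFoundedLT.induction with
  | _ z ih =>
    constructor
    · intro hz
      refine ⟨PT_iff.2 ⟨hz.lt.trans h.lt, fun A hA => ?_⟩, hz.lt⟩
      have hA' : ∀ w ∈ A, w < z ∧ PT f y w := fun w hw =>
        ⟨(hA w hw).1, (ih w (hA w hw).1).2 ⟨(hA w hw).2, (hA w hw).1.trans hz.lt⟩⟩
      rw [hz.eq hA', h.eq fun w hw => ⟨(hA w hw).1.trans hz.lt, (hA w hw).2⟩]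
    · rintro ⟨hz, hzy⟩
      refine PT_iff.2 ⟨hzy, fun A hA => ?_⟩
      have hA' : ∀ w ∈ A, w < z ∧ PT f x w := fun w hw =>
        ⟨(hA w hw).1, ((ih w (hA w hw).1).1 (hA w hw).2).1⟩
      rw [hz.eq hA', h.eq fun w hw => ⟨(hA w hw).1.trans hzy, (hA' w hw).2⟩]

/-- abstract heights on the tree -/
structure Height (f : Finset X → Prop) {M : Type u} [LinearOrder M] (g : X → M) : Prop where
  lt : ∀ x y, PT f x y → g y < g x
  ex : ∀ x m, m < g x → ∃ y, PT f x y ∧ g y = m

/-- the code of a point -/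
def Kd (f : Finset X → Prop) {M : Type u} [LinearOrder M] (g : X → M) (x : X)
    (A : Finset M) : Prop :=
  ∃ B : Finset X, (∀ y ∈ B, PT f x y) ∧ B.image g = A ∧ f (insert x B)

variable {M : Type u} [LinearOrder M] [WellFoundedLT M] {g : X → M}

theorem Height.lt_iff (hg : Height f g) {x y z : X} (hy : PT f x y) (hz : PT f x z) :
    g y < g z ↔ y < z := by
  constructor
  · intro h
    by_contra hno
    rcases (not_lt.mp hno).lt_or_eq with h' | h'
    · exact lt_asymm h (hg.lt _ _ ((hy.coh z).2 ⟨hz, h'⟩))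
    · subst h'; exact lt_irrefl _ h
  · intro h
    exact hg.lt _ _ ((hz.coh y).2 ⟨hy, h⟩)

theorem Height.inj (hg : Height f g) {x y z : X} (hy : PT f x y) (hz : PT f x z)
    (h : g y = g z) : y = z := by
  rcases lt_trichotomy y z with h' | h' | h'
  · exact absurd ((hg.lt_iff hy hz).2 h') (by rw [h]; exact lt_irrefl _)
  · exact h'
  · exact absurd ((hg.lt_iff hz hy).2 h') (by rw [h]; exact lt_irrefl _)

theorem Height.kd_image (hg : Height f g) {x : X} {B : Finset X} (hB : ∀ y ∈ B, PT f x y) :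
    Kd f g x (B.image g) ↔ f (insert x B) := by
  constructor
  · rintro ⟨B', hB', hi, hf⟩
    have : B' = B := by
      ext z
      constructor
      · intro hz
        have : g z ∈ B.image g := by rw [← hi]; exact Finset.mem_image_of_mem _ hz
        obtain ⟨w, hw, hwz⟩ := Finset.mem_image.1 this
        rwa [← hg.inj (hB w hw) (hB' z hz) hwz]
      · intro hz
        have : g z ∈ B'.image g := by rw [hi]; exact Finset.mem_image_of_mem _ hz
        obtain ⟨w, hw, hwz⟩ := Finset.mem_image.1 this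
        rwa [← hg.inj (hB' w hw) (hB z hz) hwz]
    rwa [← this]
  · intro hf
    exact ⟨B, hB, rfl, hf⟩

theorem Height.kd_pred (hg : Height f g) {x y : X} (hy : PT f x y) (A : Finset M) :
    Kd f g y A ↔ (∀ m ∈ A, m < g y) ∧ Kd f g x A := by
  constructor
  · rintro ⟨B, hB, rfl, hf⟩
    refine ⟨?_, B, fun z hz => ((hy.coh z).1 (hB z hz)).1, rfl, ?_⟩
    · intro m hm
      obtain ⟨z, hz, rfl⟩ := Finset.mem_image.1 hm
      exact hg.lt _ _ (hB z hz)
    · rwa [← hy.eq fun z hz => ((hy.coh z).1 (hB z hz)).symm]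
  · rintro ⟨hA, B, hB, rfl, hf⟩
    have hB' : ∀ z ∈ B, z < y ∧ PT f x z := fun z hz =>
      ⟨(hg.lt_iff (hB z hz) hy).1 (hA _ (Finset.mem_image_of_mem _ hz)), hB z hz⟩
    refine ⟨B, fun z hz => (hy.coh z).2 (hB' z hz).symm, rfl, ?_⟩
    rwa [hy.eq hB']

theorem Height.code_inj (hg : Height f g) : ∀ (m : M) (x x' : X), g x = m → g x' = m →
    (∀ A, Kd f g x A ↔ Kd f g x' A) → x = x' := by
  intro m
  induction m using WellFoundedLT.induction with
  | _ m ih =>
    intro x x' hx hx' hK
    have key : ∀ x x' : X, g x = m → g x' = m → (∀ A, Kd f g x A ↔ Kd f g x' A) →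
        ∀ y, PT f x y → PT f x' y := by
      intro x x' hx hx' hK y hy
      have hlt : g y < m := by rw [← hx]; exact hg.lt _ _ hy
      obtain ⟨y', hy', hgy⟩ := hg.ex x' (g y) (by rw [hx']; exact hlt)
      have : y = y' := by
        refine ih (g y) hlt y y' rfl hgy fun A => ?_
        rw [hg.kd_pred hy, hg.kd_pred hy', hgy, hK A]
      rwa [this]
    have hP : ∀ y, PT f x y ↔ PT f x' y := fun y =>
      ⟨key x x' hx hx' hK y, key x' x hx' hx (fun A => (hK A).symm) y⟩
    have fin : ∀ x x' : X, g x = m → g x' = m → (∀ A, Kd f g x A ↔ Kd f g x' A) →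
        (∀ y, PT f x y ↔ PT f x' y) → ¬ x < x' := by
      intro x x' hx hx' hK hP hlt
      have h1 : PT f x' x := by
        refine PT_iff.2 ⟨hlt, fun A hA => ?_⟩
        rw [← hg.kd_image (x := x) (fun y hy => (hP y).2 (hA y hy).2),
          ← hg.kd_image (x := x') (fun y hy => (hA y hy).2)]
        exact hK _
      exact lt_irrefl _ ((hP x).2 h1).lt
    rcases lt_trichotomy x x' with h | h | h
    · exact absurd h (fin x x' hx hx' hK hP)
    · exact h
    · exact absurd h (fin x' x hx' hx (fun A => (hK A).symm) (fun y => (hP y).symm))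

end Tree

section Count

variable {X : Type u} [LinearOrder X] [WellFoundedLT X] {f : Finset X → Prop}

theorem exists_height {μ : Cardinal.{u}} (hlt : ∀ x, #{y // PT f x y} < μ) :
    ∃ g : X → μ.ord.ToType, Height f g := by
  let h : X → Ordinal.{u} := fun x => type ((· < ·) : {y // PT f x y} → {y // PT f x y} → Prop)
  have hh : ∀ x, h x < μ.ord := by
    intro x
    rw [lt_ord]
    exact hlt x
  have htypein : ∀ x y (hy : PT f x y), h y =
      typein ((· < ·) : {y // PT f x y} → {y // PT f x y} → Prop) ⟨y, hy⟩ := by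
    intro x y hy
    rw [← type_subrel]
    refine type_eq.2 ⟨⟨⟨fun z => ⟨⟨z.1, ((hy.coh z.1).1 z.2).1⟩, ((hy.coh z.1).1 z.2).2⟩,
      fun w => ⟨w.1.1, (hy.coh _).2 ⟨w.1.2, w.2⟩⟩, fun z => rfl, fun w => rfl⟩, ?_⟩⟩
    intro a b
    exact Iff.rfl
  let g : X → μ.ord.ToType := fun x => ToType.mk ⟨h x, hh x⟩
  refine ⟨g, ⟨?_, ?_⟩⟩
  · intro x y hy
    have h1 : h y < h x := by
      rw [htypein x y hy]
      exact typein_lt_type _ _
    exact (ToType.mk (o := μ.ord)).lt_iff_lt.2 h1
  · intro x m hm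
    obtain ⟨⟨o, ho⟩, rfl⟩ := (ToType.mk (o := μ.ord)).surjective m
    have hm' : o < h x := (ToType.mk (o := μ.ord)).lt_iff_lt.1 hm
    obtain ⟨⟨y, hy⟩, hyo⟩ := typein_surj _ hm'
    refine ⟨y, hy, ?_⟩
    simp only [g]
    congr 1
    exact Subtype.ext ((htypein x y hy).trans hyo)

theorem le_two_powerlt (μ : Cardinal.{u}) : μ ≤ 2 ^< μ := by
  refine le_of_forall_lt fun c hc => ?_
  exact (cantor c).trans_le (le_powerlt 2 hc)

theorem card_le_of_height {μ : Cardinal.{u}} (hμ : ℵ₀ < μ) {g : X → μ.ord.ToType}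
    (hg : Height f g) : #X ≤ 2 ^< μ := by
  let Φ : X → Σ m : μ.ord.ToType, Set (Finset (Set.Iio m)) := fun x =>
    ⟨g x, {A | Kd f g x (A.map (Function.Embedding.subtype _))}⟩
  have hΦ : Function.Injective Φ := by
    intro x x' hxx
    refine hg.code_inj (g x) x x' rfl (congrArg Sigma.fst hxx).symm fun A => ?_
    have key : ∀ x, Kd f g x A ↔ ∃ A' : Finset (Set.Iio (Φ x).1),
        A'.map (Function.Embedding.subtype _) = A ∧ A' ∈ (Φ x).2 := by
      intro x
      constructor
      · intro h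
        have hlt : ∀ m ∈ A, m < g x := by
          obtain ⟨B, hB, rfl, -⟩ := h
          intro m hm
          obtain ⟨z, hz, rfl⟩ := Finset.mem_image.1 hm
          exact hg.lt _ _ (hB z hz)
        refine ⟨A.subtype (· ∈ Set.Iio (g x)), ?_, ?_⟩
        · ext m
          simp only [Finset.mem_map, Finset.mem_subtype, Function.Embedding.subtype_apply,
            Subtype.exists, exists_and_left, exists_prop, exists_eq_right_right]
          exact ⟨fun h => h.1, fun h => ⟨h, hlt m h⟩⟩
        · change Kd f g x _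
          convert h
          ext m
          simp only [Finset.mem_map, Finset.mem_subtype, Function.Embedding.subtype_apply,
            Subtype.exists, exists_and_left, exists_prop, exists_eq_right_right]
          exact ⟨fun h => h.1, fun h => ⟨h, hlt m h⟩⟩
      · rintro ⟨A', rfl, h⟩
        exact h
    rw [key x, key x', hxx]
  refine (mk_le_of_injective hΦ).trans ?_
  rw [mk_sigma]
  have h1 : ∀ m : μ.ord.ToType, #(Set (Finset (Set.Iio m))) ≤ 2 ^< μ := by
    intro m
    rw [mk_set]
    apply le_powerlt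
    rcases finite_or_infinite (Set.Iio m) with h | h
    · exact (lt_aleph0_of_finite _).trans hμ
    · rw [mk_finset_of_infinite]
      have h2 := mk_Iio_lt m (by rw [mk_ord_toType, type_toType])
      rwa [mk_ord_toType] at h2
  refine (sum_le_sum _ (fun _ => 2 ^< μ) h1).trans ?_
  rw [sum_const', mk_ord_toType]
  exact mul_le_of_le (hμ.le.trans (le_two_powerlt μ)) (le_two_powerlt μ) le_rfl

end Count

/-- End-homogeneous sets: if `2 ^< μ < #X` with `μ` uncountable there are a point `x` and a set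
`Z` of at least `μ` points below `x` such that `f (A ∪ {y}) = f (A ∪ {x})` whenever `A ⊆ Z` is
finite and `y ∈ Z` is above `A`. -/
theorem endhom {X : Type u} [LinearOrder X] [WellFoundedLT X] (f : Finset X → Prop)
    {μ : Cardinal.{u}} (hμ : ℵ₀ < μ) (hX : 2 ^< μ < #X) :
    ∃ (x : X) (Z : Set X), μ ≤ #Z ∧ (∀ z ∈ Z, z < x) ∧
      ∀ A : Finset X, ∀ y ∈ Z, (∀ z ∈ A, z ∈ Z ∧ z < y) → (f (insert y A) ↔ f (insert x A)) := by
  by_contra hno
  push Not at hno
  have hlt : ∀ x, #{y // PT f x y} < μ := by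
    intro x
    by_contra hle
    rw [not_lt] at hle
    obtain ⟨A, y, hy, hA, hne⟩ := hno x {y | PT f x y} hle fun z hz => hz.lt
    have := PT.eq hy (A := A) fun z hz => ⟨(hA z hz).2, (hA z hz).1⟩
    tauto
  obtain ⟨g, hg⟩ := exists_height hlt
  exact absurd hX (not_lt.mpr (card_le_of_height hμ hg))

end PartRel
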