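import Pool.Agent.PartRel.Split

/-!
Perfect binary trees of nodes whose levels are coded by `Bool`-valued functions.
-/

set_option linter.unusedSectionVars false

namespace PartRel

variable {N : Type*} {R : Bool → N → N → Prop}

/-- A nonempty set of nodes in which every node can be extended in both directions. -/
def Perf (R : Bool → N → N → Prop) (Q : Set N) : Prop :=
  Q.Nonempty ∧ ∀ s ∈ Q, ∀ τ, ∃ t ∈ Q, R τ s t

/-- Extending an extension of `s` in direction `σ` stays in direction `σ` from `s`. -/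
def TransR (R : Bool → N → N → Prop) : Prop :=
  ∀ ⦃σ τ s t u⦄, R σ s t → R τ t u → R σ s u

theorem Perf.cone (htr : TransR R) {Q : Set N}
    (h : Perf R Q) {s : N} (hs : s ∈ Q) (τ : Bool) : Perf R {t | t ∈ Q ∧ R τ s t} := by
  refine ⟨?_, ?_⟩
  · obtain ⟨t, ht, hr⟩ := h.2 s hs τ
    exact ⟨t, ht, hr⟩
  · rintro t ⟨ht, hr⟩ σ
    obtain ⟨u, hu, hr'⟩ := h.2 t ht σ
    exact ⟨u, ⟨hu, htr hr hr'⟩, hr'⟩

theorem Perf.split (htr : TransR R) {Q : Set N}
    (h : Perf R Q) (A B : N → Prop) (hc : ∀ t ∈ Q, A t ∨ B t) :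
    (∃ Q' ⊆ Q, Perf R Q' ∧ ∀ t ∈ Q', A t) ∨ (∃ Q' ⊆ Q, Perf R Q' ∧ ∀ t ∈ Q', B t) := by
  by_cases hd : ∃ s ∈ Q, ∀ s' ∈ Q, (s' = s ∨ ∃ σ, R σ s s') → ∀ τ, ∃ t ∈ Q, A t ∧ R τ s' t
  · left
    obtain ⟨s, hs, hd⟩ := hd
    refine ⟨{t | t ∈ Q ∧ A t ∧ ∃ σ, R σ s t}, fun t ht => ht.1, ⟨?_, ?_⟩, fun t ht => ht.2.1⟩
    · obtain ⟨t, ht, hA, hr⟩ := hd s hs (Or.inl rfl) false
      exact ⟨t, ht, hA, _, hr⟩
    · rintro t ⟨ht, hA, σ, hr⟩ τ
      obtain ⟨u, hu, hA', hr'⟩ := hd t ht (Or.inr ⟨σ, hr⟩) τ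
      exact ⟨u, ⟨hu, hA', σ, htr hr hr'⟩, hr'⟩
  · right
    push Not at hd
    obtain ⟨s, hs⟩ := h.1
    obtain ⟨s', hs', -, τ, hτ⟩ := hd s hs
    refine ⟨{t | t ∈ Q ∧ R τ s' t}, fun t ht => ht.1, h.cone htr hs' τ, ?_⟩
    rintro t ⟨ht, hr⟩
    rcases hc t ht with hA | hB
    · exact absurd hr (hτ t ht hA)
    · exact hB

variable {Λ : Type*} [LinearOrder Λ] [WellFoundedLT Λ] [Nonempty Λ]

theorem claimG (htr : TransR R)
    (e : N → Λ → Bool) (hinj' : ∀ σ s t, R σ s t → e s ≠ e t)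
    {Q : Set N} (hQ : Perf R Q) (τ : Bool) :
    ∃ s ∈ Q, ∃ Q' ⊆ Q, Perf R Q' ∧ (∀ t ∈ Q', R τ s t) ∧
      ∃ d, ∀ t ∈ Q', fd (e s) (e t) = d := by
  have hinj : ∀ {σ s t}, R σ s t → e s ≠ e t := fun {σ s t} h => hinj' σ s t h
  by_contra hno
  push Not at hno
  have step : ∀ s ∈ Q, ∀ Q' ⊆ Q, Perf R Q' → (∀ t ∈ Q', R τ s t) → ∀ t ∈ Q',
      (∀ s' ∈ Q, ∀ Q'' ⊆ Q, Perf R Q'' → (∀ u ∈ Q'', R τ s' u) →
        (∀ u ∈ Q'', fd (e s') (e u) < fd (e s) (e t)) → False) → False := by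
    intro s hs Q' hQ' hP hr t ht hH
    have hcone := hP.cone htr ht τ
    have hsub : {u | u ∈ Q' ∧ R τ t u} ⊆ Q := fun u hu => hQ' hu.1
    have hcov : ∀ u ∈ {u | u ∈ Q' ∧ R τ t u},
        (fd (e s) (e u) < fd (e s) (e t) ∨ fd (e s) (e u) = fd (e s) (e t)) ∨
        (fd (e t) (e u) < fd (e s) (e t) ∨ fd (e t) (e u) = fd (e s) (e t)) := by
      rintro u ⟨hu, hru⟩
      rcases triple (hinj (hr t ht)) (hinj hru) (hinj (hr u hu)) with h | h | h
      · exact Or.inl (Or.inr h.2.1)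
      · exact Or.inr (Or.inl h.1)
      · exact Or.inr (Or.inr h.1.symm)
    rcases hcone.split htr _ _ hcov with ⟨Q1, h1, hP1, hc1⟩ | ⟨Q1, h1, hP1, hc1⟩
    · rcases hP1.split htr _ _ hc1 with ⟨Q2, h2, hP2, hc2⟩ | ⟨Q2, h2, hP2, hc2⟩
      · exact hH s hs Q2 (h2.trans (h1.trans hsub)) hP2 (fun u hu => hr u (h1 (h2 hu)).1) hc2
      · obtain ⟨u, hu, hne⟩ := hno s hs Q2 (h2.trans (h1.trans hsub)) hP2
          (fun u hu => hr u (h1 (h2 hu)).1) (fd (e s) (e t))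
        exact hne (hc2 u hu)
    · rcases hP1.split htr _ _ hc1 with ⟨Q2, h2, hP2, hc2⟩ | ⟨Q2, h2, hP2, hc2⟩
      · exact hH t (hQ' ht) Q2 (h2.trans (h1.trans hsub)) hP2 (fun u hu => (h1 (h2 hu)).2) hc2
      · obtain ⟨u, hu, hne⟩ := hno t (hQ' ht) Q2 (h2.trans (h1.trans hsub)) hP2
          (fun u hu => (h1 (h2 hu)).2) (fd (e s) (e t))
        exact hne (hc2 u hu)
  have H : ∀ ξ : Λ, ∀ s ∈ Q, ∀ Q' ⊆ Q, Perf R Q' → (∀ t ∈ Q', R τ s t) →
      (∀ t ∈ Q', fd (e s) (e t) < ξ) → False := by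
    intro ξ
    induction ξ using WellFoundedLT.induction with
    | _ ξ ih =>
      intro s hs Q' hQ' hP hr hlt
      obtain ⟨t, ht⟩ := hP.1
      refine step s hs Q' hQ' hP hr t ht ?_
      intro s' hs' Q'' hQ'' hP'' hr'' hlt''
      exact ih (fd (e s) (e t)) (hlt t ht) s' hs' Q'' hQ'' hP'' hr'' hlt''
  obtain ⟨s, hs⟩ := hQ.1
  have hc := hQ.cone htr hs τ
  obtain ⟨t, ht⟩ := hc.1
  exact step s hs _ (fun u hu => hu.1) hc (fun u hu => hu.2) t ht
    (fun s' hs' Q'' hQ'' hP'' hr'' hlt'' => H _ s' hs' Q'' hQ'' hP'' hr'' hlt'')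

/-- In every perfect tree there is a chain of three nodes with the two distinct turns
`σ, !σ` at the first two, the third level being closer to the second than the first is, and
the signs equal exactly if `σ = false`. -/
theorem lemmaP (htr : TransR R)
    (e : N → Λ → Bool) (hinj' : ∀ σ s t, R σ s t → e s ≠ e t)
    {Q : Set N} (hQ : Perf R Q) :
    ∃ s ∈ Q, ∃ t ∈ Q, ∃ u ∈ Q, ∃ σ, R σ s t ∧ R (!σ) t u ∧
      fd (e s) (e t) < fd (e t) (e u) ∧ (sg (e s) (e t) = sg (e t) (e u) ↔ σ = false) := by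
  have hinj : ∀ {σ s t}, R σ s t → e s ≠ e t := fun {σ s t} h => hinj' σ s t h
  by_contra hno
  push Not at hno
  obtain ⟨s1, hs1, Q1, hQ1, hP1, hr1, d1, hd1⟩ := claimG htr e hinj' hQ false
  obtain ⟨s2, hs2, Q2, hQ2, hP2, hr2, d2, hd2⟩ := claimG htr e hinj' hP1 true
  -- constancy facts
  have const : ∀ s d, (∀ t ∈ Q2, e s ≠ e t) → (∀ t ∈ Q2, fd (e s) (e t) = d) →
      (∀ t ∈ Q2, ∀ u ∈ Q2, e t ≠ e u → d < fd (e t) (e u)) ∧
      (∀ t ∈ Q2, ∀ u ∈ Q2, sg (e s) (e t) = sg (e s) (e u)) := by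
    intro s d hne hd
    have key : ∀ t ∈ Q2, ∀ u ∈ Q2, e t ≠ e u → d < fd (e t) (e u) ∧
        sg (e s) (e t) = sg (e s) (e u) := by
      intro t ht u hu htu
      have h1 := hd t ht
      have h2 := hd u hu
      rcases triple (hne t ht).symm (hne u hu) htu with h | h | h
      · rw [fd_comm (e t) (e s), h1, h2] at h; exact absurd h.1 (lt_irrefl _)
      · rw [fd_comm (e t) (e s), h1, h2] at h; exact absurd h.1 (lt_irrefl _)
      · refine ⟨?_, ?_⟩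
        · rw [fd_comm (e t) (e s), h1] at h; exact h.2.1
        · rw [h.2.2, sg_comm (hne t ht)]; simp
    refine ⟨fun t ht u hu htu => (key t ht u hu htu).1, fun t ht u hu => ?_⟩
    by_cases htu : e t = e u
    · rw [htu]
    · exact (key t ht u hu htu).2
  obtain ⟨c1, c1'⟩ := const s1 d1 (fun t ht => hinj (hr1 t (hQ2 ht))) (fun t ht => hd1 t (hQ2 ht))
  obtain ⟨c2, c2'⟩ := const s2 d2 (fun t ht => hinj (hr2 t ht)) hd2
  obtain ⟨t0, ht0⟩ := hP2.1
  -- signs along chains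
  have hR : ∀ t ∈ Q2, ∀ u ∈ Q2, R true t u → sg (e t) (e u) = !sg (e s1) (e t0) := by
    intro t ht u hu hr
    have h := hno s1 hs1 t (hQ1 (hQ2 ht)) u (hQ1 (hQ2 hu)) false (hr1 t (hQ2 ht)) hr
      (by rw [hd1 t (hQ2 ht)]; exact c1 t ht u hu (hinj hr))
    rw [c1' t0 ht0 t ht]
    revert h
    cases sg (e s1) (e t) <;> cases sg (e t) (e u) <;> simp
  have hL : ∀ t ∈ Q2, ∀ u ∈ Q2, R false t u → sg (e t) (e u) = sg (e s2) (e t0) := by
    intro t ht u hu hr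
    have h := hno s2 (hQ1 hs2) t (hQ1 (hQ2 ht)) u (hQ1 (hQ2 hu)) true (hr2 t ht) hr
      (by rw [hd2 t ht]; exact c2 t ht u hu (hinj hr))
    rw [c2' t0 ht0 t ht]
    revert h
    cases sg (e s2) (e t) <;> cases sg (e t) (e u) <;> simp
  have hQ' : ∀ t ∈ Q2, t ∈ Q := fun t ht => hQ1 (hQ2 ht)
  by_cases hcase : sg (e s2) (e t0) = !sg (e s1) (e t0)
  · -- both directions have the same sign
    have key : ∀ s ∈ Q2, ∀ t ∈ Q2, ∀ u ∈ Q2, R false s t → R true t u →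
        fd (e s) (e u) < fd (e s) (e t) := by
      intro s hs t ht u hu hst htu
      have h1 := hL s hs t ht hst
      have h2 := hR t ht u hu htu
      rw [← hcase] at h2
      have h3 := hno s (hQ' s hs) t (hQ' t ht) u (hQ' u hu) false hst htu
      rcases triple (hinj hst) (hinj htu) (hinj (htr hst htu)) with h | h | h
      · exact absurd (h3 h.1) (by rw [h1, h2]; simp)
      · rw [h.2.1]; exact h.1
      · exfalso
        have := h.2.2
        rw [h1, h2] at this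
        revert this
        cases sg (e s2) (e t0) <;> simp
    let S : Set Λ := {ξ | ∃ t ∈ Q2, R false t0 t ∧ fd (e t0) (e t) = ξ}
    have hS : S.Nonempty := by
      obtain ⟨t, ht, hr⟩ := hP2.2 t0 ht0 false
      exact ⟨_, t, ht, hr, rfl⟩
    obtain ⟨t, ht, hr, he⟩ := wellFounded_lt.min_mem S hS
    obtain ⟨u, hu, hr'⟩ := hP2.2 t ht true
    refine wellFounded_lt.not_lt_min S (x := fd (e t0) (e u)) ⟨u, hu, htr hr hr', rfl⟩ ?_
    rw [← he]
    exact key t0 ht0 t ht u hu hr hr'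
  · have hcase' : (!sg (e s1) (e t0)) = (!sg (e s2) (e t0)) := by
      revert hcase
      cases sg (e s2) (e t0) <;> cases sg (e s1) (e t0) <;> simp
    have key : ∀ s ∈ Q2, ∀ t ∈ Q2, ∀ u ∈ Q2, R true s t → R false t u →
        fd (e s) (e t) = fd (e t) (e u) ∧ fd (e t) (e u) < fd (e s) (e u) := by
      intro s hs t ht u hu hst htu
      have h1 := hR s hs t ht hst
      have h2 := hL t ht u hu htu
      have h4 := hR s hs u hu (htr hst htu)
      rw [hcase'] at h1 h4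
      have h3 := hno s (hQ' s hs) t (hQ' t ht) u (hQ' u hu) true hst htu
      rcases triple (hinj hst) (hinj htu) (hinj (htr hst htu)) with h | h | h
      · exact absurd (h3 h.1) (by rw [h1, h2]; cases sg (e s2) (e t0) <;> simp)
      · exfalso
        have := h.2.2
        rw [h4, h2] at this
        revert this
        cases sg (e s2) (e t0) <;> simp
      · exact ⟨h.1, h.1 ▸ h.2.1⟩
    let S : Set Λ := {ξ | ∃ t ∈ Q2, R true t0 t ∧ fd (e t0) (e t) = ξ}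
    have hS : S.Nonempty := by
      obtain ⟨t, ht, hr⟩ := hP2.2 t0 ht0 true
      exact ⟨_, t, ht, hr, rfl⟩
    obtain ⟨t, ht, hr, he⟩ := wellFounded_lt.min_mem S hS
    obtain ⟨t', ht', hr'⟩ := hP2.2 t ht true
    obtain ⟨u, hu, hr''⟩ := hP2.2 t' ht' false
    refine wellFounded_lt.not_lt_min S (x := fd (e t0) (e t')) ⟨t', ht', htr hr hr', rfl⟩ ?_
    rw [← he]
    have k1 := key t0 ht0 t' ht' u hu (htr hr hr') hr''
    have k2 := key t ht t' ht' u hu hr' hr''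
    have hne1 : e t0 ≠ e u := hinj (htr (htr hr hr') hr'')
    have hne2 : e u ≠ e t := (hinj (htr hr' hr'')).symm
    have hne3 : e t0 ≠ e t := hinj hr
    rw [k1.1]
    rw [fd_comm (e t) (e u)] at k2
    rcases triple hne1 hne2 hne3 with h | h | h
    · rw [h.2.1]; exact k1.2
    · rw [h.2.1]; exact k2.2
    · exact k1.2.trans h.2.1

end PartRel
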