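import Pool.Agent.PartRel.Spine
import Pool.Agent.PartRel.Perfect

/-!
Sets of functions without a configuration of colour 1 are small.
-/

set_option linter.unusedSectionVars false

namespace PartRel

open Cardinal

universe u

variable {W Λ I : Type u} [LinearOrder W] [WellFoundedLT W] [LinearOrder Λ] [WellFoundedLT Λ]
  [Nonempty Λ] [LinearOrder I]

/-- no configuration of colour 1 inside `Y` -/
def Free (e : W → Λ → Bool) (π : W → I) (Y : Set (W → Bool)) : Prop :=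
  ∀ w ∈ Y, ∀ x ∈ Y, ∀ y ∈ Y, ∀ z ∈ Y, ∀ a b c, a < b → b < c →
    Spl x w a → Spl y w b → Spl z w c → ¬ FW e π (w a) (w b) a b c

theorem Free.mono {e : W → Λ → Bool} {π : W → I} {Y Z : Set (W → Bool)} (h : Free e π Y)
    (hZ : Z ⊆ Y) : Free e π Z :=
  fun w hw x hx y hy z hz => h w (hZ hw) x (hZ hx) y (hZ hy) z (hZ hz)

/-- nodes: `(x, ξ)` stands for the restriction of `x` below `ξ` -/
def RN (τ : Bool) (s t : (W → Bool) × W) : Prop :=
  s.2 < t.2 ∧ (∀ θ < s.2, t.1 θ = s.1 θ) ∧ t.1 s.2 = τ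

theorem RN_trans : TransR (RN (W := W)) := by
  rintro σ τ s t u ⟨h1, h2, h3⟩ ⟨h4, h5, h6⟩
  refine ⟨h1.trans h4, fun θ hθ => ?_, ?_⟩
  · rw [h5 θ (hθ.trans h1), h2 θ hθ]
  · rw [h5 _ h1, h3]

/-- the splitting nodes of `Y` contain no perfect tree -/
theorem Free.not_perf {e : W → Λ → Bool} {π : W → I} (he : Function.Injective e)
    {Y : Set (W → Bool)} (hY : Free e π Y) {Q : Set ((W → Bool) × W)} (hQ : Perf RN Q)
    (hs : ∀ s ∈ Q, ∀ i, (Cn (fun x : W → Bool => x) Y s.1 s.2 i).Nonempty) : False := by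
  obtain ⟨s, hsQ, t, htQ, u, huQ, σ, hst, htu, hlt, hsig⟩ :=
    lemmaP RN_trans (fun s : (W → Bool) × W => e s.2)
      (fun σ s t h => he.ne h.1.ne) hQ
  obtain ⟨w, hwY, hw1, hw2⟩ := hs u huQ true
  obtain ⟨z, hzY, hz1, hz2⟩ := hs u huQ false
  obtain ⟨y, hyY, hy1, hy2⟩ := hs t htQ σ
  obtain ⟨x, hxY, hx1, hx2⟩ := hs s hsQ (!σ)
  obtain ⟨st1, st2, st3⟩ := hst
  obtain ⟨tu1, tu2, tu3⟩ := htu
  beta_reduce at hw1 hw2 hz1 hz2 hy1 hy2 hx1 hx2
  have hwt : ∀ θ < t.2, w θ = t.1 θ := fun θ hθ => by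
    rw [hw1 θ (hθ.trans tu1), tu2 θ hθ]
  have hwt' : w t.2 = !σ := by rw [hw1 _ tu1, tu3]
  have hws : ∀ θ < s.2, w θ = s.1 θ := fun θ hθ => by
    rw [hwt θ (hθ.trans st1), st2 θ hθ]
  have hws' : w s.2 = σ := by rw [hwt _ st1, st3]
  have sx : Spl x w s.2 := by
    refine ⟨fun θ hθ => (hx1 θ hθ).trans (hws θ hθ).symm, ?_⟩
    rw [hx2, hws']; simp
  have sy : Spl y w t.2 := by
    refine ⟨fun θ hθ => (hy1 θ hθ).trans (hwt θ hθ).symm, ?_⟩
    rw [hy2, hwt']; simp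
  have sz : Spl z w u.2 := by
    refine ⟨fun θ hθ => (hz1 θ hθ).trans (hw1 θ hθ).symm, ?_⟩
    rw [hz2, hw2]; simp
  refine hY w hwY x hxY y hyY z hzY s.2 t.2 u.2 st1 tu1 sx sy sz ?_
  rw [hws', hwt']
  exact Or.inr ⟨by simp, Or.inr ⟨hlt, hsig⟩⟩

theorem Free.lemmaB {e : W → Λ → Bool} {π : W → I} (he : Function.Injective e)
    {Y : Set (W → Bool)} (hY : Free e π Y) {κ : Cardinal.{u}} (hκ : ℵ₀ ≤ κ) (hk : κ ≤ #Y) :
    ∃ Z ⊆ Y, κ ≤ #Z ∧ ∃ b : W → Bool, ∀ ξ, #{y | y ∈ Z ∧ Spl y b ξ} < κ := by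
  have hnonempty : ∀ Z : Set (W → Bool), κ ≤ #Z → Z.Nonempty := by
    intro Z hZ
    rw [← Set.nonempty_coe_sort, ← mk_ne_zero_iff]
    intro h0
    rw [h0] at hZ
    exact absurd (hκ.trans hZ) (not_le.mpr aleph0_pos)
  set c : (W → Bool) → (W → Bool) := fun x => x with hc
  suffices h : ∃ Z ⊆ Y, κ ≤ #Z ∧ NoSplit c Z κ by
    obtain ⟨Z, hZ, hZk, hns⟩ := h
    exact ⟨Z, hZ, hZk, spine hns⟩
  by_contra hno
  push Not at hno
  let Q : Set ((W → Bool) × W) := {s | ∀ i, κ ≤ #(Cn c Y s.1 s.2 i)}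
  refine hY.not_perf he (Q := Q) ⟨?_, ?_⟩ (fun s hs i => hnonempty _ (hs i))
  · have h1 := hno Y subset_rfl hk
    unfold NoSplit at h1
    push Not at h1
    obtain ⟨x, ξ, h2, h3⟩ := h1
    refine ⟨(x, ξ), fun i => ?_⟩
    cases i
    · exact h2
    · exact h3
  · intro s hs τ
    have h1 := hno (Cn c Y s.1 s.2 τ) (fun y hy => hy.1) (hs τ)
    unfold NoSplit at h1
    push Not at h1
    obtain ⟨x, ξ, h2, h3⟩ := h1
    obtain ⟨y0, hy0⟩ := hnonempty _ h2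
    obtain ⟨y1, hy1⟩ := hnonempty _ h3
    have hlt : s.2 < ξ := by
      by_contra hle
      rw [not_lt] at hle
      have h5 : y0 ξ = y1 ξ := by
        rcases hle.lt_or_eq with h | h
        · exact (hy0.1.2.1 _ h).trans (hy1.1.2.1 _ h).symm
        · subst h; exact hy0.1.2.2.trans hy1.1.2.2.symm
      have h6 : y0 ξ = false := hy0.2.2
      have h7 : y1 ξ = true := hy1.2.2
      rw [h6, h7] at h5
      exact absurd h5 (by simp)
    refine ⟨(x, ξ), ?_, hlt, ?_, ?_⟩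
    · intro i
      cases i
      · exact h2.trans (mk_le_mk_of_subset fun y hy => ⟨hy.1.1, hy.2⟩)
      · exact h3.trans (mk_le_mk_of_subset fun y hy => ⟨hy.1.1, hy.2⟩)
    · intro θ hθ
      exact (hy0.2.1 θ (hθ.trans hlt)).symm.trans (hy0.1.2.1 θ hθ)
    · exact (hy0.2.1 s.2 hlt).symm.trans hy0.1.2.2

/-- combs -/
theorem Free.comb_false {e : W → Λ → Bool} {π : W → I} (he : Function.Injective e)
    {Y : Set (W → Bool)} (hY : Free e π Y) {κ : Cardinal.{u}} (hκ : κ.IsRegular)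
    {b : W → Bool} {U : Set W} (hU : ∀ ξ ∈ U, ∃ y ∈ Y, Spl y b ξ) (hUκ : κ ≤ #U)
    {J : Set Λ} (hJ : ∀ x ∈ U, ∀ y ∈ U, ∀ ξ, Spl (e x) (e y) ξ → ξ ∈ J) (hJκ : #J < κ) :
    False := by
  have hσ : ∃ σ, κ ≤ #{ξ | ξ ∈ U ∧ b ξ = σ} := by
    by_contra hno
    push Not at hno
    have h1 : U ⊆ {ξ | ξ ∈ U ∧ b ξ = false} ∪ {ξ | ξ ∈ U ∧ b ξ = true} := by
      intro ξ hξ
      cases h : b ξ
      · exact Or.inl ⟨hξ, h⟩
      · exact Or.inr ⟨hξ, h⟩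
    have h2 : #U < κ := lt_of_le_of_lt ((mk_le_mk_of_subset h1).trans (mk_union_le _ _))
      (add_lt_of_lt hκ.aleph0_le (hno false) (hno true))
    exact absurd hUκ (not_le.mpr h2)
  obtain ⟨σ, hσ⟩ := hσ
  obtain ⟨p, hp, q, hq, r, hr, s, hs, hpq, hqr, hrs, h1, h2, h3⟩ :=
    lemmaA he hκ hσ (fun x hx y hy => hJ x hx.1 y hy.1) hJκ
  obtain ⟨x, hx, sx⟩ := hU p hp.1
  obtain ⟨y, hy, sy⟩ := hU q hq.1
  obtain ⟨z, hz, sz⟩ := hU r hr.1
  obtain ⟨w, hw, sw⟩ := hU s hs.1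
  refine hY w hw x hx y hy z hz p q r hpq hqr (sx.trans_lt sw.symm (hpq.trans (hqr.trans hrs)))
    (sy.trans_lt sw.symm (hqr.trans hrs)) (sz.trans_lt sw.symm hrs) ?_
  rw [sw.1 p (hpq.trans (hqr.trans hrs)), sw.1 q (hqr.trans hrs), hp.2, hq.2]
  exact Or.inl ⟨rfl, h1, h2, h3⟩

/-- The hypotheses on the blocks of levels. -/
structure Blocks (e : W → Λ → Bool) (π : W → I) (J₀ : Set Λ) (J : I → Set Λ)
    (k : I → Cardinal.{u}) (lam : Cardinal.{u}) : Prop extends Coding e π where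
  cross : ∀ a b ξ, π a ≠ π b → Spl (e a) (e b) ξ → ξ ∈ J₀
  count : J₀.Countable
  inside : ∀ a b ξ, π a = π b → Spl (e a) (e b) ξ → ξ ∈ J (π a)
  card : ∀ i, #(J i) ≤ k i
  inf : ∀ i, ℵ₀ ≤ k i
  lt : ∀ i, k i < lam
  lam_inf : ℵ₀ < lam
  union : ∀ S : Set (Set (W → Bool)), S.Countable → (∀ s ∈ S, #s < lam) → #(⋃₀ S) < lam

variable {e : W → Λ → Bool} {π : W → I} {J₀ : Set Λ} {J : I → Set Λ}
    {k : I → Cardinal.{u}} {lam : Cardinal.{u}}

/-- Claim 2: sets all of whose splitting levels lie in one block -/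
theorem Blocks.claim2 (B : Blocks e π J₀ J k lam) {Y : Set (W → Bool)} (hY : Free e π Y)
    (i : I) (hi : ∀ x ∈ Y, ∀ y ∈ Y, ∀ ξ, Spl x y ξ → π ξ = i) : #Y ≤ k i := by
  by_contra hlt
  rw [not_le, ← Order.succ_le_iff] at hlt
  have hreg : (Order.succ (k i)).IsRegular := isRegular_succ (B.inf i)
  obtain ⟨Z, hZY, hZ, b, hb⟩ := hY.lemmaB B.inj hreg.aleph0_le hlt
  cases isEmpty_or_nonempty W with
  | inl hW =>
    have : Subsingleton (W → Bool) := inferInstance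
    have h1 : #Z ≤ 1 := Cardinal.mk_le_one_iff_set_subsingleton.2
      (fun x _ y _ => Subsingleton.elim x y)
    exact absurd (hreg.aleph0_le.trans (hZ.trans h1)) (not_le.mpr one_lt_aleph0)
  | inr hW =>
    have h1 := spine_comb (c := fun x : W → Bool => x) hreg hZ (fun x _ y _ h => h) hb
      (J := {ξ | π ξ = i}) (fun x hx y hy ξ h => hi x (hZY hx) y (hZY hy) ξ h)
    refine hY.comb_false B.inj hreg (b := b) (U := _) ?_ h1 (J := J i) ?_ ?_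
    · rintro ξ ⟨-, y, hy, hs⟩
      exact ⟨y, hZY hy, hs⟩
    · rintro x ⟨hx, -⟩ y ⟨hy, -⟩ ξ hs
      have := B.inside x y ξ (hx.trans hy.symm) hs
      rwa [show π x = i from hx] at this
    · exact (B.card i).trans_lt (Order.lt_succ _)

/-- Claim 1(a) -/
theorem Blocks.claim1 (B : Blocks e π J₀ J k lam) {Y : Set (W → Bool)} (hY : Free e π Y)
    {b : W → Bool} {U : Set W} (hU : ∀ ξ ∈ U, ∃ y ∈ Y, Spl y b ξ) : (π '' U).Countable := by
  by_contra hno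
  choose g hg hg' using (show ∀ i : π '' U, ∃ ξ, ξ ∈ U ∧ π ξ = i from
    fun ⟨i, ξ, h1, h2⟩ => ⟨ξ, h1, h2⟩)
  have h1 : ℵ₁ ≤ #(π '' U) := by
    rw [← Cardinal.succ_aleph0, Order.succ_le_iff]
    rw [← not_le, Cardinal.le_aleph0_iff_set_countable]
    exact hno
  have hinj : Function.Injective g := by
    intro i j h
    apply Subtype.ext
    rw [← hg' i, ← hg' j, h]
  have h2 : ℵ₁ ≤ #(Set.range g) := by
    rw [Cardinal.mk_range_eq _ hinj]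
    exact h1
  refine hY.comb_false B.inj isRegular_aleph_one (b := b) (U := Set.range g) ?_ h2 (J := J₀)
    ?_ ?_
  · rintro ξ ⟨i, rfl⟩
    exact hU _ (hg i)
  · rintro x ⟨i, rfl⟩ y ⟨j, rfl⟩ ξ hs
    refine B.cross _ _ ξ ?_ hs
    intro h
    rw [hg' i, hg' j] at h
    have h' := Subtype.ext h
    subst h'
    exact hs.ne rfl
  · exact lt_of_le_of_lt (Cardinal.le_aleph0_iff_set_countable.2 B.count) aleph0_lt_aleph_one

/-- Free sets have size less than `lam`. -/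
theorem Blocks.main (B : Blocks e π J₀ J k lam) {Y : Set (W → Bool)} (hY : Free e π Y) :
    #Y < lam := by
  by_contra hlt
  rw [not_lt] at hlt
  obtain ⟨Z, hZY, hZ, b, hb⟩ := hY.lemmaB B.inj B.lam_inf.le hlt
  set U : Set W := {ξ | ∃ y ∈ Z, Spl y b ξ} with hU
  have hUc : (π '' U).Countable := B.claim1 hY (b := b) (U := U)
    (fun ξ ⟨y, hy, hs⟩ => ⟨y, hZY hy, hs⟩)
  -- bad levels
  let U1 : Set W := {ξ | ξ ∈ U ∧ ∀ ζ ∈ U, ζ ≤ ξ}
  let U2 : Set W := {ξ | ξ ∈ U ∧ ∀ ζ ∈ U, ζ < ξ → π ζ = π ξ → b ζ ≠ b ξ}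
  have hU1 : U1.Countable := by
    apply Set.Subsingleton.countable
    rintro x ⟨hx, hx'⟩ y ⟨hy, hy'⟩
    exact le_antisymm (hy' x hx) (hx' y hy)
  have hU2 : U2.Countable := by
    have hinj : Set.InjOn (fun ξ => (π ξ, b ξ)) U2 := by
      rintro x ⟨hx, hx'⟩ y ⟨hy, hy'⟩ hxy
      simp only [Prod.mk.injEq] at hxy
      rcases lt_trichotomy x y with h | h | h
      · exact absurd hxy.2 (hy' x hx h hxy.1)
      · exact h
      · exact absurd hxy.2.symm (hx' y hy h hxy.1.symm)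
    refine Set.countable_of_injective_of_countable_image hinj ?_
    refine (hUc.prod (Set.countable_univ (α := Bool))).mono ?_
    rintro _ ⟨x, hx, rfl⟩
    exact ⟨⟨x, hx.1, rfl⟩, trivial⟩
  let D : W → Set (W → Bool) := fun ξ => {y | y ∈ Z ∧ Spl y b ξ}
  let G : I → Set (W → Bool) := fun i =>
    {y | y ∈ Z ∧ ∃ ξ, ξ ∉ U1 ∧ ξ ∉ U2 ∧ π ξ = i ∧ Spl y b ξ}
  have hG : ∀ i, #(G i) < lam := by
    intro i
    refine lt_of_le_of_lt (B.claim2 (Y := G i) (hY.mono fun y hy => hZY hy.1) i ?_) (B.lt i)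
    rintro x ⟨hx, ξ, h1, h2, h3, h4⟩ y ⟨hy, ζ, h5, h6, h7, h8⟩ θ hs
    rcases lt_trichotomy ξ ζ with hl | hl | hl
    · rw [hs.unique (h4.trans_lt h8.symm hl)]; exact h3
    · subst hl
      have hlt : ξ < θ := h4.trans_eq h8.symm hs
      by_contra hne
      have hξU : ξ ∈ U := ⟨x, hx, h4⟩
      obtain ⟨ζ, hζU, hζ⟩ : ∃ ζ ∈ U, ξ < ζ := by
        by_contra hcon
        push Not at hcon
        exact h1 ⟨hξU, hcon⟩
      obtain ⟨η, hηU, hη, hηπ, hηb⟩ : ∃ η ∈ U, η < ξ ∧ π η = π ξ ∧ b η = b ξ := by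
        by_contra hcon
        push Not at hcon
        exact h2 ⟨hξU, hcon⟩
      obtain ⟨p, hp, sp⟩ := hηU
      obtain ⟨q, hq, sq⟩ := hζU
      refine hY x (hZY hx) p (hZY hp) q (hZY hq) y (hZY hy) η ξ θ hη hlt
        (sp.trans_lt h4.symm hη) (sq.trans_gt h4.symm hζ) hs.symm ?_
      have hx1 : x η = b η := h4.1 η hη
      have hx2 : x ξ ≠ b ξ := h4.2
      refine Or.inr ⟨?_, Or.inl ⟨hηπ, ?_⟩⟩
      · rw [hx1, hηb]; exact hx2.symm
      · rw [h3]; exact fun h => hne h.symm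
    · rw [hs.unique (h4.trans_gt h8.symm hl)]; exact h7
  -- cover
  let S : Set (Set (W → Bool)) := {{b}} ∪ (D '' (U1 ∪ U2)) ∪ (G '' (π '' U))
  have hS : S.Countable :=
    ((Set.countable_singleton _).union ((hU1.union hU2).image _)).union (hUc.image _)
  have hcov : Z ⊆ ⋃₀ S := by
    intro y hy
    by_cases h : y = b
    · exact ⟨{b}, Or.inl (Or.inl rfl), h⟩
    · obtain ⟨ξ, hξ⟩ := exists_spl h
      have hξU : ξ ∈ U := ⟨y, hy, hξ⟩
      by_cases h' : ξ ∈ U1 ∪ U2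
      · exact ⟨D ξ, Or.inl (Or.inr ⟨ξ, h', rfl⟩), hy, hξ⟩
      · refine ⟨G (π ξ), Or.inr ⟨π ξ, ⟨ξ, hξU, rfl⟩, rfl⟩, hy, ξ, ?_, ?_, rfl, hξ⟩
        · exact fun h => h' (Or.inl h)
        · exact fun h => h' (Or.inr h)
  have hlt' : #(⋃₀ S) < lam := by
    refine B.union S hS ?_
    rintro s ((rfl | ⟨ξ, -, rfl⟩) | ⟨i, -, rfl⟩)
    · rw [mk_singleton]; exact one_lt_aleph0.trans B.lam_inf
    · exact hb ξ
    · exact hG i
  exact absurd (hZ.trans (mk_le_mk_of_subset hcov)) (not_le.mpr hlt')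

end PartRel
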