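import Pool.Agent.PartRel.Concrete

/-!
The negative relation at `2 ^ (2 ^< ℵ_{ω₁})`.
-/

set_option linter.unusedSectionVars false

namespace PartRel

open Cardinal Ordinal

universe u

open Classical in
theorem neg (X : Type u) (hX : #X ≤ 2 ^ (2 ^< ℵ_ (ω_ 1))) :
    ∃ f : Finset X → Prop,
      (∀ Y : Set X, #Y = ℵ_ (ω_ 1) → ∃ s : Finset X, (s : Set X) ⊆ Y ∧ s.card = 4 ∧ f s) ∧
      (∀ Y : Set X, #Y = 5 → ∃ s : Finset X, (s : Set X) ⊆ Y ∧ s.card = 4 ∧ ¬ f s) := by
  obtain ⟨W, Λ, I, _, _, _, _, _, _, e, π, J₀, J, k, B, hW⟩ := exists_system _ rfl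
  have h1 : (2 : Cardinal.{u}) ^< ℵ_ (ω_ 1) ≤ #W := powerlt_le.2 hW
  have h2 : #X ≤ #(W → Bool) := by
    have h3 : #(W → Bool) = 2 ^ #W := by simp
    rw [h3]
    exact hX.trans (Cardinal.power_le_power_left two_ne_zero h1)
  obtain ⟨j⟩ : Nonempty (X ↪ (W → Bool)) := h2
  refine ⟨fun s => Good e π (s.map j : Set (W → Bool)), ?_, ?_⟩
  · intro Y hY
    by_contra hno
    push Not at hno
    have hfree : Free e π (j '' Y) := by
      rintro w ⟨w, hw, rfl⟩ x ⟨x, hx, rfl⟩ y ⟨y, hy, rfl⟩ z ⟨z, hz, rfl⟩ a b c hab hbc sx sy sz hF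
      have sxy := sx.trans_lt sy.symm hab
      have sxz := sx.trans_lt sz.symm (hab.trans hbc)
      have syz := sy.trans_lt sz.symm hbc
      have n1 : x ≠ w := fun h => sx.ne (by rw [h])
      have n2 : y ≠ w := fun h => sy.ne (by rw [h])
      have n3 : z ≠ w := fun h => sz.ne (by rw [h])
      have n4 : x ≠ y := fun h => sxy.ne (by rw [h])
      have n5 : x ≠ z := fun h => sxz.ne (by rw [h])
      have n6 : y ≠ z := fun h => syz.ne (by rw [h])
      refine hno {w, x, y, z} ?_ ?_ ?_
      · intro t ht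
        simp only [Finset.coe_insert, Finset.coe_singleton, Set.mem_insert_iff,
          Set.mem_singleton_iff] at ht
        rcases ht with rfl | rfl | rfl | rfl <;> assumption
      · rw [Finset.card_insert_of_notMem, Finset.card_insert_of_notMem,
          Finset.card_insert_of_notMem, Finset.card_singleton] <;>
          simp [n1.symm, n2.symm, n3.symm, n4, n5, n6]
      · exact ⟨j w, by simp, j x, by simp, j y, by simp, j z, by simp, a, b, c, hab, hbc,
          sx, sy, sz, hF⟩
    have h4 := B.main hfree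
    rw [Cardinal.mk_image_eq j.injective, hY] at h4
    exact lt_irrefl _ h4
  · intro Y hY
    by_contra hno
    push Not at hno
    have hfin : Y.Finite := by
      rw [← Cardinal.lt_aleph0_iff_set_finite, hY]
      exact Cardinal.nat_lt_aleph0 5
    obtain ⟨S, rfl⟩ := hfin.exists_finset_coe
    have hcard : S.card = 5 := by
      have : (#(S : Set X)) = S.card := by simp
      rw [this] at hY
      exact_mod_cast hY
    refine no_five B.toCoding (S.map j) (by rw [Finset.card_map]; omega) ?_
    intro s hs hs4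
    obtain ⟨t, ht, rfl⟩ := Finset.subset_map_iff.1 hs
    rw [Finset.card_map] at hs4
    exact hno t (by exact_mod_cast ht) hs4

end PartRel
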