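import Pool.Agent.PartRel.Triangle
import Pool.Agent.PartRel.EndHom

/-!
The positive relation above `2 ^ (2 ^< ℵ_{ω₁})`.
-/

set_option linter.unusedSectionVars false

namespace PartRel

open Cardinal Ordinal

universe u

open Classical in
theorem endhom_on {X : Type u} [LinearOrder X] [WellFoundedLT X] (f : Finset X → Prop)
    {μ : Cardinal.{u}} (hμ : ℵ₀ < μ) (Y : Set X) (hY : 2 ^< μ < #Y) :
    ∃ x ∈ Y, ∃ Z ⊆ Y, μ ≤ #Z ∧ (∀ z ∈ Z, z < x) ∧
      ∀ A : Finset X, ∀ y ∈ Z, (∀ z ∈ A, z ∈ Z ∧ z < y) →
        (f (insert y A) ↔ f (insert x A)) := by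
  obtain ⟨x, Z, hZ, hlt, hE⟩ := endhom (X := Y) (fun A => f (A.map (Function.Embedding.subtype _)))
    hμ hY
  refine ⟨x.1, x.2, Subtype.val '' Z, ?_, ?_, ?_, ?_⟩
  · rintro _ ⟨z, -, rfl⟩; exact z.2
  · rwa [mk_image_eq Subtype.val_injective]
  · rintro _ ⟨z, hz, rfl⟩; exact hlt z hz
  · rintro A _ ⟨y, hy, rfl⟩ hA
    have hAY : ∀ z ∈ A, z ∈ Y := by
      intro z hz
      obtain ⟨⟨w, -, rfl⟩, -⟩ := hA z hz
      exact w.2
    have h1 := hE (A.subtype (· ∈ Y)) y hy (by
      intro z hz
      rw [Finset.mem_subtype] at hz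
      obtain ⟨⟨w, hw, hwz⟩, hlt'⟩ := hA z.1 hz
      rw [← Subtype.ext hwz]
      refine ⟨hw, ?_⟩
      rw [← hwz] at hlt'
      exact hlt')
    have h2 : (A.subtype (· ∈ Y)).map (Function.Embedding.subtype _) = A := by
      ext z
      simp only [Finset.mem_map, Finset.mem_subtype, Function.Embedding.subtype_apply,
        Subtype.exists, exists_and_left, exists_prop, exists_eq_right_right]
      exact ⟨fun h => h.1, fun h => ⟨h, hAY z h⟩⟩
    simp only [Finset.map_insert, Function.Embedding.subtype_apply] at h1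
    rw [h2] at h1
    exact h1

theorem mk_coe_fin {X : Type u} (S : Finset X) : #(S : Set X) = S.card := by simp

theorem exists_top {X : Type u} [LinearOrder X] {s : Finset X} {n : ℕ} (hs : s.card = n + 1) :
    ∃ (d : X) (A : Finset X), insert d A = s ∧ A.card = n ∧ (∀ z ∈ A, z < d) := by
  have hne : s.Nonempty := by rw [← Finset.card_pos]; omega
  refine ⟨s.max' hne, s.erase (s.max' hne), Finset.insert_erase (s.max'_mem hne), ?_, ?_⟩
  · rw [Finset.card_erase_of_mem (s.max'_mem hne)]; omega
  · intro z hz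
    rw [Finset.mem_erase] at hz
    exact lt_of_le_of_ne (s.le_max' z hz.2) hz.1

theorem pos (X : Type u) (hX : 2 ^ (2 ^< ℵ_ (ω_ 1)) < #X) (f : Finset X → Prop) :
    (∃ Y : Set X, #Y = ℵ_ (ω_ 1) ∧ ∀ s : Finset X, (s : Set X) ⊆ Y → s.card = 4 → ¬ f s) ∨
    (∃ Y : Set X, #Y = 5 ∧ ∀ s : Finset X, (s : Set X) ⊆ Y → s.card = 4 → f s) := by
  obtain ⟨_, _⟩ := exists_wellFoundedLT X
  set lam : Cardinal.{u} := ℵ_ (ω_ 1) with hlam
  have hlam0 : ℵ₀ < lam := by
    rw [hlam, ← aleph_zero]
    exact aleph_lt_aleph.2 (omega_pos 1)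
  set μ : Cardinal.{u} := Order.succ (2 ^< lam) with hμ
  have hμ0 : ℵ₀ < μ := hlam0.trans_le ((le_two_powerlt lam).trans (Order.le_succ _))
  have h1 : 2 ^< μ < #(Set.univ : Set X) := by
    rw [hμ, powerlt_succ two_ne_zero, mk_univ]
    exact hX
  obtain ⟨x1, -, Z1, -, hZ1, hx1, E1⟩ := endhom_on f hμ0 Set.univ h1
  have h2 : 2 ^< lam < #Z1 := (Order.lt_succ _).trans_le hZ1
  obtain ⟨x2, hx2Z, Z2, hZ2Z, hZ2, hx2, E2⟩ := endhom_on (fun A => f (insert x1 A)) hlam0 Z1 h2
  let G : Z2 → Z2 → Prop := fun a b => f (insert x1 (insert x2 {a.1, b.1}))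
  have hGs : ∀ a b, G a b → G b a := by
    intro a b h
    simp only [G] at h ⊢
    rwa [Finset.pair_comm]
  by_cases hT : NoTri G
  · left
    obtain ⟨B, hB, hBi⟩ := exists_indep hT hGs hZ2
    obtain ⟨B', hB'B, hB'⟩ := le_mk_iff_exists_subset.1 hB
    refine ⟨Subtype.val '' B', ?_, ?_⟩
    · rw [mk_image_eq Subtype.val_injective]; exact hB'
    · intro s hs hs4
      have hsZ : ∀ z ∈ s, z ∈ Z2 := by
        intro z hz
        obtain ⟨w, -, rfl⟩ := hs hz
        exact w.2
      obtain ⟨d, A, rfl, hA3, hAd⟩ := exists_top hs4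
      have hdZ : d ∈ Z2 := hsZ d (Finset.mem_insert_self _ _)
      have hAZ : ∀ z ∈ A, z ∈ Z2 := fun z hz => hsZ z (Finset.mem_insert_of_mem hz)
      rw [E1 A d (hZ2Z hdZ) fun z hz => ⟨hZ2Z (hAZ z hz), hAd z hz⟩]
      obtain ⟨c, P, rfl, hP2, hPc⟩ := exists_top hA3
      have hcZ : c ∈ Z2 := hAZ c (Finset.mem_insert_self _ _)
      have hPZ : ∀ z ∈ P, z ∈ Z2 := fun z hz => hAZ z (Finset.mem_insert_of_mem hz)
      have E2' := E2 P c hcZ fun z hz => ⟨hPZ z hz, hPc z hz⟩
      beta_reduce at E2'
      rw [E2']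
      obtain ⟨a, b, hab, rfl⟩ := Finset.card_eq_two.1 hP2
      have haB : a ∈ Subtype.val '' B' := hs (by simp)
      have hbB : b ∈ Subtype.val '' B' := hs (by simp)
      obtain ⟨a, ha, rfl⟩ := haB
      obtain ⟨b, hb, rfl⟩ := hbB
      exact hBi a (hB'B ha) b (hB'B hb) (fun h => hab (by rw [h]))
  · right
    unfold NoTri at hT
    push Not at hT
    obtain ⟨a, b, c, hab, hbc, hac, gab, gbc, gac, -⟩ := hT
    have nab : a.1 ≠ b.1 := fun h => hab (Subtype.ext h)
    have nbc : b.1 ≠ c.1 := fun h => hbc (Subtype.ext h)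
    have nac : a.1 ≠ c.1 := fun h => hac (Subtype.ext h)
    set T : Finset X := {a.1, b.1, c.1} with hT
    have hT3 : T.card = 3 := by
      rw [hT, Finset.card_insert_of_notMem, Finset.card_insert_of_notMem, Finset.card_singleton] <;>
        simp [nab, nbc, nac]
    have hTZ : ∀ z ∈ T, z ∈ Z2 := by
      intro z hz
      simp only [hT, Finset.mem_insert, Finset.mem_singleton] at hz
      rcases hz with rfl | rfl | rfl
      · exact a.2
      · exact b.2
      · exact c.2
    have hpair : ∀ P ⊆ T, P.card = 2 → f (insert x1 (insert x2 P)) := by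
      intro P hP hP2
      obtain ⟨p, q, hpq, rfl⟩ := Finset.card_eq_two.1 hP2
      have hp := hP (show p ∈ ({p, q} : Finset X) by simp)
      have hq := hP (show q ∈ ({p, q} : Finset X) by simp)
      simp only [hT, Finset.mem_insert, Finset.mem_singleton] at hp hq
      rcases hp with rfl | rfl | rfl <;> rcases hq with rfl | rfl | rfl
      · exact absurd rfl hpq
      · exact gab
      · exact gac
      · exact hGs _ _ gab
      · exact absurd rfl hpq
      · exact gbc
      · exact hGs _ _ gac
      · exact hGs _ _ gbc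
      · exact absurd rfl hpq
    have hT1 : f (insert x1 T) := by
      obtain ⟨m, P, hmP, hP2, hPm⟩ := exists_top hT3
      have hmZ : m ∈ Z2 := hTZ m (hmP ▸ Finset.mem_insert_self _ _)
      have hPT : P ⊆ T := by rw [← hmP]; exact Finset.subset_insert _ _
      have E2' := E2 P m hmZ fun z hz => ⟨hTZ z (hPT hz), hPm z hz⟩
      beta_reduce at E2'
      rw [← hmP, E2']
      exact hpair P hPT hP2
    have hT2 : f (insert x2 T) := by
      rw [E1 T x2 hx2Z fun z hz => ⟨hZ2Z (hTZ z hz), hx2 z (hTZ z hz)⟩]
      exact hT1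
    have n12 : x1 ≠ x2 := (hx1 x2 hx2Z).ne'
    have n1T : x1 ∉ T := fun h => (hx1 x1 (hZ2Z (hTZ x1 h))).ne rfl
    have n2T : x2 ∉ T := fun h => (hx2 x2 (hTZ x2 h)).ne rfl
    refine ⟨((insert x1 (insert x2 T) : Finset X) : Set X), ?_, ?_⟩
    · rw [mk_coe_fin, Finset.card_insert_of_notMem, Finset.card_insert_of_notMem n2T,
        hT3]
      · norm_num
      · simp [n12, n1T]
    · intro s hs hs4
      have hs' : s ⊆ insert x1 (insert x2 T) := by exact_mod_cast hs
      by_cases m1 : x1 ∈ s
      · by_cases m2 : x2 ∈ s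
        · have h5 : s = insert x1 (insert x2 (s \ {x1, x2})) := by
            ext z
            simp only [Finset.mem_insert, Finset.mem_sdiff, Finset.mem_singleton, not_or]
            by_cases z1 : z = x1
            · subst z1; simp [m1]
            · by_cases z2 : z = x2
              · subst z2; simp [m2]
              · simp [z1, z2]
          rw [h5]
          refine hpair _ ?_ ?_
          · intro z hz
            simp only [Finset.mem_sdiff, Finset.mem_insert, Finset.mem_singleton, not_or] at hz
            have := hs' hz.1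
            simp only [Finset.mem_insert] at this
            rcases this with h | h | h
            · exact absurd h hz.2.1
            · exact absurd h hz.2.2
            · exact h
          · have h6 : ({x1, x2} : Finset X) ⊆ s := by
              intro z hz
              simp only [Finset.mem_insert, Finset.mem_singleton] at hz
              rcases hz with rfl | rfl <;> assumption
            rw [Finset.card_sdiff_of_subset h6, hs4, Finset.card_pair n12]
        · have h5 : s ⊆ insert x1 T := by
            intro z hz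
            have := hs' hz
            simp only [Finset.mem_insert] at this ⊢
            rcases this with h | h | h
            · exact Or.inl h
            · exact absurd (h ▸ hz) m2
            · exact Or.inr h
          have h6 : s = insert x1 T := Finset.eq_of_subset_of_card_le h5 (by
            rw [Finset.card_insert_of_notMem n1T, hT3, hs4])
          rw [h6]; exact hT1
      · have h5 : s ⊆ insert x2 T := by
          intro z hz
          have := hs' hz
          simp only [Finset.mem_insert] at this ⊢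
          rcases this with h | h | h
          · exact absurd (h ▸ hz) m1
          · exact Or.inl h
          · exact Or.inr h
        have h6 : s = insert x2 T := Finset.eq_of_subset_of_card_le h5 (by
          rw [Finset.card_insert_of_notMem n2T, hT3, hs4])
        rw [h6]; exact hT2

end PartRel
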