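import Pool.Agent.PartRel.Colour

/-!
Spines of trees without splitting into two large cones.
-/

set_option linter.unusedSectionVars false

namespace PartRel

open Cardinal

universe u

variable {Λ V : Type u} [LinearOrder Λ] [WellFoundedLT Λ]

/-- the elements of `Z` whose code extends `x` restricted below `ξ`, followed by `i` -/
def Cn (c : V → Λ → Bool) (Z : Set V) (x : Λ → Bool) (ξ : Λ) (i : Bool) : Set V :=
  {y | y ∈ Z ∧ (∀ ζ < ξ, c y ζ = x ζ) ∧ c y ξ = i}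

/-- no node splits into two cones of size at least `κ` -/
def NoSplit (c : V → Λ → Bool) (Z : Set V) (κ : Cardinal.{u}) : Prop :=
  ∀ x ξ, ¬ (κ ≤ #(Cn c Z x ξ false) ∧ κ ≤ #(Cn c Z x ξ true))

open Classical in
theorem spine {c : V → Λ → Bool} {Z : Set V} {κ : Cardinal.{u}} (h : NoSplit c Z κ) :
    ∃ b : Λ → Bool, ∀ ξ, #{y | y ∈ Z ∧ Spl (c y) b ξ} < κ := by
  let step : ∀ ξ : Λ, (∀ ζ, ζ < ξ → Bool) → Bool := fun ξ rec =>
    decide (κ ≤ #{y | y ∈ Z ∧ (∀ ζ (hζ : ζ < ξ), c y ζ = rec ζ hζ) ∧ c y ξ = true})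
  let b : Λ → Bool := WellFounded.fix (C := fun _ => Bool) wellFounded_lt step
  have hb : ∀ ξ, b ξ = decide (κ ≤ #(Cn c Z b ξ true)) := by
    intro ξ
    have := WellFounded.fix_eq (C := fun _ => Bool) (wellFounded_lt : WellFounded ((· < ·) : Λ → Λ → Prop)) step ξ
    exact this
  refine ⟨b, fun ξ => ?_⟩
  by_cases hk : κ ≤ #(Cn c Z b ξ true)
  · have hbt : b ξ = true := by rw [hb ξ]; simpa using hk
    have h2 : ¬ κ ≤ #(Cn c Z b ξ false) := fun h3 => h b ξ ⟨h3, hk⟩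
    refine lt_of_le_of_lt (mk_le_mk_of_subset ?_) (not_le.mp h2)
    rintro y ⟨hy, h3, h4⟩
    refine ⟨hy, h3, ?_⟩
    rw [hbt] at h4
    simpa using h4
  · have hbt : b ξ = false := by rw [hb ξ]; simpa using hk
    refine lt_of_le_of_lt (mk_le_mk_of_subset ?_) (not_le.mp hk)
    rintro y ⟨hy, h3, h4⟩
    refine ⟨hy, h3, ?_⟩
    rw [hbt] at h4
    simpa using h4

/-- Decomposition along a spine, for a regular cardinal. -/
theorem spine_comb [Nonempty Λ] {c : V → Λ → Bool} {Z : Set V} {κ : Cardinal.{u}}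
    (hκ : κ.IsRegular) (hZ : κ ≤ #Z) (hc : ∀ x ∈ Z, ∀ y ∈ Z, x ≠ y → c x ≠ c y)
    {b : Λ → Bool} (hb : ∀ ξ, #{y | y ∈ Z ∧ Spl (c y) b ξ} < κ)
    {J : Set Λ} (hJ : ∀ x ∈ Z, ∀ y ∈ Z, ∀ ξ, Spl (c x) (c y) ξ → ξ ∈ J) :
    κ ≤ #{ξ | ξ ∈ J ∧ ∃ y ∈ Z, Spl (c y) b ξ} := by
  by_contra hlt
  rw [not_le] at hlt
  set U : Set Λ := {ξ | ∃ y ∈ Z, Spl (c y) b ξ} with hU
  set UJ : Set Λ := {ξ | ξ ∈ J ∧ ∃ y ∈ Z, Spl (c y) b ξ} with hUJ
  have hsub : (U \ J).Subsingleton := by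
    have key : ∀ ξ ∈ U \ J, ∀ ζ ∈ U \ J, ¬ ξ < ζ := by
      rintro ξ ⟨⟨y, hy, hs⟩, hξ⟩ ζ ⟨⟨z, hz, hs'⟩, -⟩ hl
      exact hξ (hJ y hy z hz ξ (hs.trans_lt hs'.symm hl))
    intro ξ h1 ζ h2
    rcases lt_trichotomy ξ ζ with h | h | h
    · exact absurd h (key _ h1 _ h2)
    · exact h
    · exact absurd h (key _ h2 _ h1)
  have hUlt : #U < κ := by
    have h1 : U ⊆ UJ ∪ (U \ J) := by
      intro ξ hξ
      by_cases hj : ξ ∈ J
      · exact Or.inl ⟨hj, hξ⟩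
      · exact Or.inr ⟨hξ, hj⟩
    refine lt_of_le_of_lt ((mk_le_mk_of_subset h1).trans (mk_union_le _ _)) ?_
    refine add_lt_of_lt hκ.aleph0_le hlt ?_
    exact lt_of_le_of_lt (Cardinal.mk_le_one_iff_set_subsingleton.2 hsub)
      (one_lt_aleph0.trans_le hκ.aleph0_le)
  have hcov : Z ⊆ {y | y ∈ Z ∧ c y = b} ∪ ⋃ ξ ∈ U, {y | y ∈ Z ∧ Spl (c y) b ξ} := by
    intro y hy
    by_cases h : c y = b
    · exact Or.inl ⟨hy, h⟩
    · obtain ⟨ξ, hξ⟩ := exists_spl h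
      exact Or.inr (Set.mem_biUnion ⟨y, hy, hξ⟩ ⟨hy, hξ⟩)
  have h1 : #Z < κ := by
    refine lt_of_le_of_lt ((mk_le_mk_of_subset hcov).trans (mk_union_le _ _)) ?_
    refine add_lt_of_lt hκ.aleph0_le ?_ ?_
    · refine lt_of_le_of_lt (Cardinal.mk_le_one_iff_set_subsingleton.2 ?_)
        (one_lt_aleph0.trans_le hκ.aleph0_le)
      rintro x ⟨hx, hx'⟩ y ⟨hy, hy'⟩
      by_contra hne
      exact hc x hx y hy hne (hx'.trans hy'.symm)
    · rw [card_biUnion_lt_iff_forall_of_isRegular hκ hUlt]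
      exact fun ξ _ => hb ξ
  exact absurd hZ (not_le.mpr h1)

/-- If there are fewer than `κ` possible levels, a set of size `κ` splits into two large
cones. -/
theorem exists_split [Nonempty Λ] {c : V → Λ → Bool} {Z : Set V} {κ : Cardinal.{u}}
    (hκ : κ.IsRegular) (hZ : κ ≤ #Z) (hc : ∀ x ∈ Z, ∀ y ∈ Z, x ≠ y → c x ≠ c y)
    {J : Set Λ} (hJ : ∀ x ∈ Z, ∀ y ∈ Z, ∀ ξ, Spl (c x) (c y) ξ → ξ ∈ J) (hJκ : #J < κ) :
    ∃ x ξ, κ ≤ #(Cn c Z x ξ false) ∧ κ ≤ #(Cn c Z x ξ true) := by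
  by_contra hno
  push Not at hno
  have hns : NoSplit c Z κ := fun x ξ h => absurd h.2 (not_le.mpr (hno x ξ h.1))
  obtain ⟨b, hb⟩ := spine hns
  have h1 := spine_comb hκ hZ hc hb hJ
  have h2 : {ξ | ξ ∈ J ∧ ∃ y ∈ Z, Spl (c y) b ξ} ⊆ J := fun ξ h => h.1
  exact absurd (h1.trans (mk_le_mk_of_subset h2)) (not_le.mpr hJκ)

/-- In a well-ordered set of size at least `κ` there is a subset of size at least `κ` all of
whose initial segments have size less than `κ`. -/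
theorem exists_initial {W : Type u} [LinearOrder W] [WellFoundedLT W] {κ : Cardinal.{u}}
    {X : Set W} (hX : κ ≤ #X) :
    ∃ X' ⊆ X, κ ≤ #X' ∧ ∀ a ∈ X', #{b | b ∈ X' ∧ b < a} < κ := by
  by_cases h : ∃ x ∈ X, κ ≤ #{y | y ∈ X ∧ y < x}
  · let S : Set W := {x | x ∈ X ∧ κ ≤ #{y | y ∈ X ∧ y < x}}
    have hS : S.Nonempty := by obtain ⟨x, hx, hk⟩ := h; exact ⟨x, hx, hk⟩
    set m := wellFounded_lt.min S hS with hm
    have hmS : m ∈ S := wellFounded_lt.min_mem S hS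
    refine ⟨{y | y ∈ X ∧ y < m}, fun y hy => hy.1, hmS.2, ?_⟩
    rintro a ⟨ha, ham⟩
    by_contra hcon
    rw [not_lt] at hcon
    refine wellFounded_lt.not_lt_min S (x := a) ⟨ha, hcon.trans (mk_le_mk_of_subset ?_)⟩ ham
    rintro b ⟨⟨hb, -⟩, hba⟩
    exact ⟨hb, hba⟩
  · push Not at h
    exact ⟨X, subset_rfl, hX, h⟩

/-- Large sets of levels contain the configuration of colour 1 for equal turns. -/
theorem lemmaA {W : Type u} [LinearOrder W] [WellFoundedLT W] [Nonempty Λ]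
    {e : W → Λ → Bool} (he : Function.Injective e)
    {κ : Cardinal.{u}} (hκ : κ.IsRegular) {X : Set W} (hX : κ ≤ #X)
    {J : Set Λ} (hJ : ∀ x ∈ X, ∀ y ∈ X, ∀ ξ, Spl (e x) (e y) ξ → ξ ∈ J) (hJκ : #J < κ) :
    ∃ a ∈ X, ∃ b ∈ X, ∃ c ∈ X, ∃ d ∈ X, a < b ∧ b < c ∧ c < d ∧
      sg (e a) (e b) = false ∧ sg (e a) (e c) = false ∧ fd (e a) (e b) < fd (e a) (e c) := by
  obtain ⟨X', hX', hk, hini⟩ := exists_initial hX
  have hsucc : ∀ Z ⊆ X', κ ≤ #Z → ∀ a ∈ X', ∃ b ∈ Z, a < b := by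
    intro Z hZ hZk a ha
    by_contra hno
    push Not at hno
    have h1 : Z ⊆ {b | b ∈ X' ∧ b < a} ∪ {a} := by
      intro z hz
      rcases (hno z hz).lt_or_eq with h | h
      · exact Or.inl ⟨hZ hz, h⟩
      · exact Or.inr h
    have h2 : #Z < κ := by
      refine lt_of_le_of_lt ((mk_le_mk_of_subset h1).trans (mk_union_le _ _)) ?_
      refine add_lt_of_lt hκ.aleph0_le (hini a ha) ?_
      rw [mk_singleton]
      exact one_lt_aleph0.trans_le hκ.aleph0_le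
    exact absurd hZk (not_le.mpr h2)
  have hinj : ∀ Z : Set W, ∀ x ∈ Z, ∀ y ∈ Z, x ≠ y → e x ≠ e y := fun Z x _ y _ h => he.ne h
  have hnonempty : ∀ Z : Set W, κ ≤ #Z → Z.Nonempty := by
    intro Z hZ
    rw [← Set.nonempty_coe_sort, ← mk_ne_zero_iff]
    intro h0
    rw [h0] at hZ
    exact absurd (hκ.aleph0_le.trans hZ) (not_le.mpr aleph0_pos)
  obtain ⟨x, ξ, h0, h1⟩ := exists_split (c := e) hκ hk (hinj _)
    (fun x hx y hy => hJ x (hX' hx) y (hX' hy)) hJκ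
  have hsub0 : Cn e X' x ξ false ⊆ X' := fun y hy => hy.1
  have hsub1 : Cn e X' x ξ true ⊆ X' := fun y hy => hy.1
  obtain ⟨x', ξ', h00, h01⟩ := exists_split (c := e) hκ h0 (hinj _)
    (fun x hx y hy => hJ x (hX' hx.1) y (hX' hy.1)) hJκ
  obtain ⟨a, ha⟩ := hnonempty _ h00
  obtain ⟨b, hb, hab⟩ := hsucc _ hsub1 h1 a ha.1.1
  obtain ⟨c, hc, hbc⟩ := hsucc _ (fun y hy => hy.1.1) h01 b hb.1
  obtain ⟨d, hd, hcd⟩ := hsucc _ subset_rfl hk c hc.1.1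
  have sab : Spl (e a) (e b) ξ := by
    refine ⟨fun ζ hζ => (ha.1.2.1 ζ hζ).trans (hb.2.1 ζ hζ).symm, ?_⟩
    rw [ha.1.2.2, hb.2.2]; simp
  have sac : Spl (e a) (e c) ξ' := by
    refine ⟨fun ζ hζ => (ha.2.1 ζ hζ).trans (hc.2.1 ζ hζ).symm, ?_⟩
    rw [ha.2.2, hc.2.2]; simp
  have hξ : ξ < ξ' := by
    by_contra hle
    rw [not_lt] at hle
    rcases hle.lt_or_eq with h | h
    · exact sac.2 ((ha.1.2.1 _ h).trans (hc.1.2.1 _ h).symm)
    · subst h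
      exact sac.2 (ha.1.2.2.trans hc.1.2.2.symm)
  refine ⟨a, hX' ha.1.1, b, hX' hb.1, c, hX' hc.1.1, d, hX' hd, hab, hbc, hcd, ?_, ?_, ?_⟩
  · rw [sab.sg_eq]; exact ha.1.2.2
  · rw [sac.sg_eq]; exact ha.2.2
  · rw [sab.fd_eq, sac.fd_eq]; exact hξ

end PartRel
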