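import Mathlib

/-!
First differences of `Bool`-valued functions on a well-ordered type.
-/

set_option linter.unusedSectionVars false

namespace PartRel

variable {Λ : Type*} [LinearOrder Λ] [WellFoundedLT Λ]

/-- `x` and `y` agree below `ξ` and differ at `ξ`. -/
def Spl (x y : Λ → Bool) (ξ : Λ) : Prop := (∀ ζ < ξ, x ζ = y ζ) ∧ x ξ ≠ y ξ

theorem Spl.symm {x y : Λ → Bool} {ξ : Λ} (h : Spl x y ξ) : Spl y x ξ :=
  ⟨fun ζ hζ => (h.1 ζ hζ).symm, h.2.symm⟩

theorem exists_spl {x y : Λ → Bool} (h : x ≠ y) : ∃ ξ, Spl x y ξ := by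
  have hne : {ξ | x ξ ≠ y ξ}.Nonempty := by
    by_contra hc
    rw [Set.not_nonempty_iff_eq_empty, Set.eq_empty_iff_forall_notMem] at hc
    exact h (funext fun ξ => by simpa using hc ξ)
  refine ⟨wellFounded_lt.min _ hne, fun ζ hζ => ?_, wellFounded_lt.min_mem _ hne⟩
  by_contra hc
  exact wellFounded_lt.not_lt_min {ξ | x ξ ≠ y ξ} hc hζ

theorem Spl.unique {x y : Λ → Bool} {ξ ζ : Λ} (h : Spl x y ξ) (h' : Spl x y ζ) : ξ = ζ := by
  rcases lt_trichotomy ξ ζ with hl | hl | hl
  · exact absurd (h'.1 _ hl) h.2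
  · exact hl
  · exact absurd (h.1 _ hl) h'.2

theorem Spl.ne {x y : Λ → Bool} {ξ : Λ} (h : Spl x y ξ) : x ≠ y := fun he => h.2 (by rw [he])

/-- first difference `x|y` before `y|z` -/
theorem Spl.trans_lt {x y z : Λ → Bool} {a b : Λ} (h : Spl x y a) (h' : Spl y z b) (hab : a < b) :
    Spl x z a :=
  ⟨fun ζ hζ => (h.1 ζ hζ).trans (h'.1 ζ (hζ.trans hab)), by
    rw [← h'.1 a hab]; exact h.2⟩

theorem Spl.trans_gt {x y z : Λ → Bool} {a b : Λ} (h : Spl x y a) (h' : Spl y z b) (hab : b < a) :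
    Spl x z b :=
  (h'.symm.trans_lt h.symm hab).symm

theorem bool_eq {p q r : Bool} (h : p ≠ q) (h' : q ≠ r) : p = r := by
  revert p q r; decide

theorem bool_not {p q : Bool} (h : p ≠ q) : q = !p := by
  revert p q; decide

theorem Spl.trans_eq {x y z : Λ → Bool} {a c : Λ} (h : Spl x y a) (h' : Spl y z a)
    (hc : Spl x z c) : a < c := by
  have h1 : x a = z a := bool_eq h.2 h'.2
  rcases lt_trichotomy a c with hl | hl | hl
  · exact hl
  · subst hl; exact absurd h1 hc.2
  · exact absurd ((h.1 c hl).trans (h'.1 c hl)) hc.2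

open Classical in
/-- the first difference, as a function (junk value if there is none) -/
noncomputable def fd [Nonempty Λ] (x y : Λ → Bool) : Λ :=
  if h : ∃ ξ, Spl x y ξ then h.choose else Classical.arbitrary Λ

/-- the value of the first function at the first difference -/
noncomputable def sg [Nonempty Λ] (x y : Λ → Bool) : Bool := x (fd x y)

section
variable [Nonempty Λ]

theorem fd_spl {x y : Λ → Bool} (h : x ≠ y) : Spl x y (fd x y) := by
  have h' := exists_spl h
  unfold fd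
  rw [dif_pos h']
  exact h'.choose_spec

theorem Spl.fd_eq {x y : Λ → Bool} {ξ : Λ} (h : Spl x y ξ) : fd x y = ξ :=
  (fd_spl h.ne).unique h

theorem fd_comm (x y : Λ → Bool) : fd x y = fd y x := by
  by_cases h : x = y
  · rw [h]
  · exact (fd_spl (Ne.symm h)).symm.fd_eq

theorem sg_comm {x y : Λ → Bool} (h : x ≠ y) : sg y x = !sg x y := by
  have := (fd_spl h).2
  unfold sg
  rw [fd_comm y x]
  revert this
  cases x (fd x y) <;> cases y (fd x y) <;> simp

theorem Spl.sg_eq {x y : Λ → Bool} {ξ : Λ} (h : Spl x y ξ) : sg x y = x ξ := by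
  unfold sg; rw [h.fd_eq]

/-- The three possible shapes of a triple of distinct functions. -/
theorem triple {x y z : Λ → Bool} (hxy : x ≠ y) (hyz : y ≠ z) (hxz : x ≠ z) :
    (fd x y < fd y z ∧ fd x z = fd x y ∧ sg x z = sg x y) ∨
    (fd y z < fd x y ∧ fd x z = fd y z ∧ sg x z = sg y z) ∨
    (fd x y = fd y z ∧ fd x y < fd x z ∧ sg y z = !sg x y) := by
  have h1 := fd_spl hxy
  have h2 := fd_spl hyz
  have h3 := fd_spl hxz
  rcases lt_trichotomy (fd x y) (fd y z) with h | h | h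
  · left
    have h4 := h1.trans_lt h2 h
    exact ⟨h, h4.fd_eq, by rw [h4.sg_eq, h1.sg_eq]⟩
  · right; right
    refine ⟨h, h1.trans_eq (h ▸ h2) h3, ?_⟩
    rw [h1.sg_eq, h2.sg_eq, ← h]
    have := h1.2
    revert this
    cases x (fd x y) <;> cases y (fd x y) <;> simp
  · right; left
    have h4 := h1.trans_gt h2 h
    refine ⟨h, h4.fd_eq, ?_⟩
    rw [h4.sg_eq, h2.sg_eq, h1.1 _ h]

end

end PartRel
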