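import Pool.Agent.PartRel.Neg
import Pool.Agent.PartRel.Pos

/-!
# MP_d0bad0_lc, Q1: the relation `(ℵ_{ω₁}, 5)^4`

`κ → (ℵ_{ω₁}, 5)^4` holds exactly for the cardinals `κ > 2 ^ (2 ^< ℵ_{ω₁})`, where
`2 ^< ℵ_{ω₁}` is the weak power, the supremum of `2 ^ μ` over `μ < ℵ_{ω₁}`.
-/

namespace PartRel.Threshold

open Cardinal Ordinal

universe u v

/-- The ordinary partition relation `κ → (lam i)^r_i`: for every set `X` of cardinality `κ` and
every colouring `f` of the `r`-element subsets of `X` by the indices `i` there are an index `i`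
and a set `Y ⊆ X` of cardinality `lam i` all of whose `r`-element subsets have colour `i`. -/
def Arrow (κ : Cardinal.{u}) {ι : Type v} (lam : ι → Cardinal.{u}) (r : ℕ) : Prop :=
  ∀ X : Type u, #X = κ → ∀ f : {s : Finset X // s.card = r} → ι,
    ∃ (i : ι) (Y : Set X), #Y = lam i ∧
      ∀ s : {s : Finset X // s.card = r}, (s.1 : Set X) ⊆ Y → f s = i

theorem result (κ : Cardinal.{u}) :
    Arrow κ ![ℵ_ (ω_ 1), 5] 4 ↔ 2 ^ (2 ^< ℵ_ (ω_ 1)) < κ := by
  classical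
  constructor
  · intro h
    by_contra hle
    rw [not_lt] at hle
    obtain ⟨X, rfl⟩ : ∃ X : Type u, #X = κ := ⟨κ.out, mk_out κ⟩
    obtain ⟨f, hf0, hf1⟩ := PartRel.neg X hle
    obtain ⟨i, Y, hY, hs⟩ := h X rfl (fun s => if f s.1 then 1 else 0)
    fin_cases i
    · obtain ⟨s, hsY, hs4, hfs⟩ := hf0 Y hY
      have := hs ⟨s, hs4⟩ hsY
      simp [hfs] at this
    · obtain ⟨s, hsY, hs4, hfs⟩ := hf1 Y hY
      have := hs ⟨s, hs4⟩ hsY
      simp [hfs] at this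
  · rintro h X rfl f
    rcases PartRel.pos X h (fun s => ∃ hs : s.card = 4, f ⟨s, hs⟩ = 1) with
      ⟨Y, hY, hf⟩ | ⟨Y, hY, hf⟩
    · refine ⟨0, Y, hY, fun s hs => ?_⟩
      have h1 : f s ≠ 1 := fun h1 => hf s.1 hs s.2 ⟨s.2, h1⟩
      have h2 : ∀ i : Fin 2, i ≠ 1 → i = 0 := by decide
      exact h2 _ h1
    · refine ⟨1, Y, hY, fun s hs => ?_⟩
      obtain ⟨_, h1⟩ := hf s.1 hs s.2
      exact h1

end PartRel.Threshold
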