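import Pool.Agent.PartRel.Concrete

/-!
Triangle-free graphs on `ℵ_{ω₁}` vertices have independent sets of size `ℵ_{ω₁}`
(a case of the Erdős–Dushnik–Miller theorem for a singular cardinal).
-/

set_option linter.unusedSectionVars false

namespace PartRel

open Cardinal Ordinal

universe u

theorem exists_maximal_pairwise {V : Type u} (r : V → V → Prop) (hs : ∀ a b, r a b → r b a)
    (A : Set V) :
    ∃ B ⊆ A, (∀ a ∈ B, ∀ b ∈ B, a ≠ b → r a b) ∧ ∀ x ∈ A, x ∉ B → ∃ b ∈ B, ¬ r x b := by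
  obtain ⟨B, hB⟩ := zorn_subset {B : Set V | B ⊆ A ∧ B.Pairwise r} (by
    intro c hc hchain
    refine ⟨⋃₀ c, ⟨Set.sUnion_subset fun s hs => (hc hs).1, ?_⟩,
      fun s hs => Set.subset_sUnion_of_mem hs⟩
    rw [Set.pairwise_sUnion hchain.directedOn]
    exact fun s hs => (hc hs).2)
  refine ⟨B, hB.prop.1, fun a ha b hb hab => hB.prop.2 ha hb hab, ?_⟩
  intro x hx hxB
  by_contra hno
  push Not at hno
  have h1 : insert x B ∈ {B : Set V | B ⊆ A ∧ B.Pairwise r} := by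
    refine ⟨Set.insert_subset hx hB.prop.1, ?_⟩
    rw [Set.pairwise_insert]
    exact ⟨hB.prop.2, fun b hb _ => ⟨hno b hb, hs _ _ (hno b hb)⟩⟩
  exact hxB (hB.le_of_ge h1 (Set.subset_insert x B) (Set.mem_insert x B))

variable {V : Type u} {G : V → V → Prop}

/-- no three distinct pairwise adjacent points -/
def NoTri (G : V → V → Prop) : Prop :=
  ∀ a b c, a ≠ b → b ≠ c → a ≠ c → G a b → G b c → G a c → False

/-- independent -/
def Indep (G : V → V → Prop) (B : Set V) : Prop := ∀ a ∈ B, ∀ b ∈ B, a ≠ b → ¬ G a b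

/-- neighbours -/
def Nb (G : V → V → Prop) (x : V) : Set V := {y | x ≠ y ∧ G x y}

theorem NoTri.indep_nb (h : NoTri G) (x : V) : Indep G (Nb G x) := by
  rintro a ⟨ha, ha'⟩ b ⟨hb, hb'⟩ hab hG
  exact h x a b ha hab hb ha' hG hb'

theorem regular_case (hT : NoTri G) (hs : ∀ a b, G a b → G b a) {κ : Cardinal.{u}}
    (hκ : κ.IsRegular) {A : Set V} (hA : κ ≤ #A) : ∃ B ⊆ A, κ ≤ #B ∧ Indep G B := by
  by_cases h : ∃ x, κ ≤ #(Nb G x ∩ A : Set V)
  · obtain ⟨x, hx⟩ := h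
    exact ⟨_, Set.inter_subset_right, hx, fun a ha b hb => hT.indep_nb x a ha.1 b hb.1⟩
  · push Not at h
    obtain ⟨B, hBA, hB, hmax⟩ := exists_maximal_pairwise (fun a b => ¬ G a b)
      (fun a b h h' => h (hs _ _ h')) A
    refine ⟨B, hBA, ?_, fun a ha b hb hab => hB a ha b hb hab⟩
    by_contra hlt
    rw [not_le] at hlt
    have hcov : A ⊆ B ∪ ⋃ b ∈ B, (Nb G b ∩ A) := by
      intro x hx
      by_cases hxB : x ∈ B
      · exact Or.inl hxB
      · obtain ⟨b, hb, hG⟩ := hmax x hx hxB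
        rw [not_not] at hG
        exact Or.inr (Set.mem_biUnion hb ⟨⟨fun h => hxB (h ▸ hb), hs _ _ hG⟩, hx⟩)
    have h1 : #A < κ := by
      refine lt_of_le_of_lt ((mk_le_mk_of_subset hcov).trans (mk_union_le _ _)) ?_
      refine add_lt_of_lt hκ.aleph0_le hlt ?_
      rw [card_biUnion_lt_iff_forall_of_isRegular hκ hlt]
      exact fun b _ => h b
    exact absurd hA (not_le.mpr h1)

theorem exists_indep (hT : NoTri G) (hs : ∀ a b, G a b → G b a) (hV : ℵ_ (ω_ 1) ≤ #V) :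
    ∃ B : Set V, ℵ_ (ω_ 1) ≤ #B ∧ Indep G B := by
  by_cases hbig : ∃ x, ℵ_ (ω_ 1) ≤ #(Nb G x)
  · obtain ⟨x, hx⟩ := hbig
    exact ⟨_, hx, hT.indep_nb x⟩
  push Not at hbig
  let I : Type u := (ω_ 1 : Ordinal.{u}).ToType
  let rk : I → Ordinal.{u} := fun i => ((ToType.mk (o := ω_ 1)).symm i).1
  have hrk : ∀ i, rk i < ω_ 1 := fun i => ((ToType.mk (o := ω_ 1)).symm i).2
  have hrk_lt : ∀ i j, i < j → rk i < rk j := fun i j h =>
    (ToType.mk (o := ω_ 1)).symm.lt_iff_lt.2 h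
  have hrk_surj : ∀ o < ω_ 1, ∃ i : I, rk i = o := fun o ho =>
    ⟨ToType.mk ⟨o, ho⟩, by simp [rk]⟩
  have hI : #I = ℵ₁ := by rw [mk_toType, card_omega]
  have hIio : ∀ i : I, (Set.Iio i).Countable := by
    intro i
    rw [← Cardinal.le_aleph0_iff_set_countable, ← lt_aleph_one_iff]
    have h2 := mk_Iio_lt i (by rw [hI, type_toType, ord_aleph])
    rwa [hI] at h2
  have hbound : ∀ T : Set I, T.Countable → ∃ m, ∀ t ∈ T, t < m := by
    intro T hT
    by_contra hno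
    push Not at hno
    have h1 : (Set.univ : Set I) ⊆ ⋃ t ∈ T, Set.Iic t := fun m _ => by
      obtain ⟨t, ht, hm⟩ := hno m
      exact Set.mem_biUnion ht hm
    have h2 : (⋃ t ∈ T, Set.Iic t).Countable := by
      refine hT.biUnion fun t _ => ?_
      rw [← Set.Iio_insert]
      exact (hIio t).insert t
    have h3 : (Set.univ : Set I).Countable := h2.mono h1
    rw [← Cardinal.le_aleph0_iff_set_countable, ← lt_aleph_one_iff, mk_univ, hI] at h3
    exact lt_irrefl _ h3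
  -- degrees
  have hdeg : ∀ x, ∃ i : I, #(Nb G x) ≤ ℵ_ (rk i) := by
    intro x
    obtain ⟨o, ho, hle⟩ := lt_aleph_omega_one (hbig x)
    obtain ⟨i, hi⟩ := hrk_surj o ho
    exact ⟨i, by rw [hi]; exact hle⟩
  choose j hj using hdeg
  have hlim : ∀ o < ω_ 1, o + 1 < ω_ 1 := fun o ho => (isSuccLimit_omega 1).add_one_lt ho
  -- large independent sets with bounded degrees
  have hB : ∀ i : I, ∃ (B : Set V) (k : I), #B = ℵ_ (rk i + 1 + 1) ∧ Indep G B ∧
      ∀ x ∈ B, #(Nb G x) ≤ ℵ_ (rk k) := by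
    intro i
    have hreg : (ℵ_ (rk i + 1 + 1)).IsRegular := isRegular_aleph_add_one _
    have hle : ℵ_ (rk i + 1 + 1) ≤ #V :=
      (aleph_le_aleph.2 (hlim _ (hlim _ (hrk i))).le).trans hV
    obtain ⟨A, hA⟩ := le_mk_iff_exists_set.1 hle
    have hk : ∃ k : I, ℵ_ (rk i + 1 + 1) ≤ #{x | x ∈ A ∧ j x = k} := by
      by_contra hno
      push Not at hno
      have h1 : A ⊆ ⋃ k : I, {x | x ∈ A ∧ j x = k} := fun x hx =>
        Set.mem_iUnion.2 ⟨j x, hx, rfl⟩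
      have h2 : #(⋃ k : I, {x | x ∈ A ∧ j x = k}) < ℵ_ (rk i + 1 + 1) := by
        rw [card_iUnion_lt_iff_forall_of_isRegular hreg]
        · exact hno
        · rw [hI]
          refine aleph_lt_aleph.2 ?_
          exact lt_of_le_of_lt le_add_self (Order.lt_add_one_iff.2 le_rfl)
      exact absurd (mk_le_mk_of_subset h1) (by rw [hA]; exact not_le.mpr h2)
    obtain ⟨k, hk⟩ := hk
    obtain ⟨B, hBA, hBk, hBi⟩ := regular_case hT hs hreg hk
    obtain ⟨B', hB'B, hB'⟩ := le_mk_iff_exists_subset.1 hBk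
    refine ⟨B', k, hB', fun a ha b hb => hBi a (hB'B ha) b (hB'B hb), fun x hx => ?_⟩
    rw [← (hBA (hB'B hx)).2]
    exact hj x
  choose B k hBcard hBind hBdeg using hB
  -- a sparse unbounded set of indices
  obtain ⟨S, -, hS, hSmax⟩ := exists_maximal_pairwise
    (fun a b : I => (a < b → k a < b) ∧ (b < a → k b < a)) (fun a b h => ⟨h.2, h.1⟩) Set.univ
  have hSunb : ∀ i : I, ∃ s ∈ S, i ≤ s := by
    intro i
    by_contra hno
    push Not at hno
    have hSc : S.Countable := (hIio i).mono hno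
    obtain ⟨m, hm⟩ := hbound (S ∪ k '' S) (hSc.union (hSc.image k))
    obtain ⟨b, hb, hnr⟩ := hSmax m trivial (fun h => lt_irrefl _ (hm m (Or.inl h)))
    refine hnr ⟨fun h => absurd h (lt_asymm (hm b (Or.inl hb))), fun _ =>
      hm _ (Or.inr ⟨b, hb, rfl⟩)⟩
  let U : I → Set V := fun ξ => ⋃ ζ ∈ {ζ | ζ ∈ S ∧ ζ < ξ}, ⋃ x ∈ B ζ, Nb G x
  have hU : ∀ ξ ∈ S, #(U ξ) < ℵ_ (rk ξ + 1 + 1) := by
    intro ξ hξ
    have hreg : (ℵ_ (rk ξ + 1 + 1)).IsRegular := isRegular_aleph_add_one _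
    have h1 : #{ζ | ζ ∈ S ∧ ζ < ξ} < ℵ_ (rk ξ + 1 + 1) := by
      have : {ζ | ζ ∈ S ∧ ζ < ξ} ⊆ Set.Iio ξ := fun ζ h => h.2
      refine lt_of_le_of_lt (mk_le_mk_of_subset this) ?_
      refine lt_of_le_of_lt (Cardinal.le_aleph0_iff_set_countable.2 (hIio ξ)) ?_
      rw [← aleph_zero]
      exact aleph_lt_aleph.2 (by simp)
    rw [card_biUnion_lt_iff_forall_of_isRegular hreg h1]
    rintro ζ ⟨hζ, hlt⟩
    have h2 : #(B ζ) < ℵ_ (rk ξ + 1 + 1) := by
      rw [hBcard ζ]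
      refine aleph_lt_aleph.2 ?_
      have h5 : rk ζ + 1 ≤ rk ξ := Order.add_one_le_iff.2 (hrk_lt ζ ξ hlt)
      have h6 : rk ζ + 1 + 1 ≤ rk ξ + 1 := by gcongr
      exact lt_of_le_of_lt h6 (Order.lt_add_one_iff.2 le_rfl)
    rw [card_biUnion_lt_iff_forall_of_isRegular hreg h2]
    intro x hx
    refine lt_of_le_of_lt (hBdeg ζ x hx) (aleph_lt_aleph.2 ?_)
    have h3 : k ζ < ξ := (hS ζ hζ ξ hξ hlt.ne).1 hlt
    refine (hrk_lt _ _ h3).trans ?_
    exact (Order.lt_add_one_iff.2 le_rfl).trans (Order.lt_add_one_iff.2 le_rfl)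
  have hC : ∀ ξ ∈ S, ℵ_ (rk ξ + 1 + 1) ≤ #(B ξ \ U ξ : Set V) := by
    intro ξ hξ
    by_contra hlt
    rw [not_le] at hlt
    have h1 : B ξ ⊆ (B ξ \ U ξ) ∪ U ξ := by
      rw [Set.sdiff_union_self]
      exact Set.subset_union_left
    have h2 : #(B ξ) < ℵ_ (rk ξ + 1 + 1) :=
      lt_of_le_of_lt ((mk_le_mk_of_subset h1).trans (mk_union_le _ _))
        (add_lt_of_lt (aleph0_le_aleph _) hlt (hU ξ hξ))
    rw [hBcard ξ] at h2
    exact lt_irrefl _ h2
  refine ⟨⋃ ξ ∈ S, (B ξ \ U ξ), ?_, ?_⟩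
  · by_contra hlt
    rw [not_le] at hlt
    obtain ⟨o, ho, hle⟩ := lt_aleph_omega_one hlt
    obtain ⟨i, hi⟩ := hrk_surj o ho
    obtain ⟨s, hsS, his⟩ := hSunb i
    have h1 : ℵ_ (rk s + 1 + 1) ≤ ℵ_ o := by
      refine ((hC s hsS).trans (mk_le_mk_of_subset ?_)).trans hle
      exact Set.subset_biUnion_of_mem (u := fun ξ => B ξ \ U ξ) hsS
    rw [aleph_le_aleph, ← hi] at h1
    have h2 : rk i ≤ rk s := (ToType.mk (o := ω_ 1)).symm.le_iff_le.2 his
    have h3 : rk s < rk s + 1 + 1 :=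
      (Order.lt_add_one_iff.2 le_rfl).trans (Order.lt_add_one_iff.2 le_rfl)
    exact absurd (h1.trans h2) (not_le.mpr h3)
  · intro a ha b hb hab hG
    simp only [Set.mem_iUnion, exists_prop] at ha hb
    obtain ⟨ζ, hζ, ha, ha'⟩ := ha
    obtain ⟨ξ, hξ, hb, hb'⟩ := hb
    rcases lt_trichotomy ζ ξ with h | h | h
    · refine hb' (Set.mem_biUnion (x := ζ) ⟨hζ, h⟩ (Set.mem_biUnion ha ⟨hab, hG⟩))
    · subst h
      exact hBind ζ a ha b hb hab hG
    · refine ha' (Set.mem_biUnion (x := ξ) ⟨hξ, h⟩ (Set.mem_biUnion hb ⟨hab.symm, hs _ _ hG⟩))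

end PartRel
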